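import Pool.Agent.Q204.TFM.Mono

/-!
# The contradiction
-/

set_option autoImplicit false
open MeasureTheory Set Filter Topology Metric
open scoped RealInnerProductSpace BigOperators ENNReal
open Pool.Agent.Helper557 Pool.Agent.Helper557.TFP Pool.Agent.H9R2.TF

namespace Pool.Agent.Q204.TFM

/-- the tail integral -/
lemma tail_int {b : ℝ} (hb : 0 < b) :
    Integrable ((closedBall (0 : E3) b)ᶜ.indicator fun v => (‖v‖ ^ 6)⁻¹ * (1 / b - 1 / ‖v‖)) ∧
    ∫ v, (closedBall (0 : E3) b)ᶜ.indicator (fun v => (‖v‖ ^ 6)⁻¹ * (1 / b - 1 / ‖v‖)) v =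
      Real.pi / 3 / b ^ 4 := by
  have hind : (closedBall (0 : E3) b)ᶜ.indicator
      (fun v : E3 => (‖v‖ ^ 6)⁻¹ * (1 / b - 1 / ‖v‖)) =
      fun y => (Ioi b).indicator (fun r => (r ^ 6)⁻¹ * (1 / b - 1 / r)) ‖y‖ := by
    funext y
    by_cases hy : b < ‖y‖
    · rw [indicator_of_mem (by simpa using hy), indicator_of_mem (mem_Ioi.2 hy)]
    · rw [indicator_of_notMem (by simpa using hy),
        indicator_of_notMem (fun h => hy (mem_Ioi.1 h))]
  have hind2 : ∀ r ∈ Ioi (0 : ℝ), r ^ 2 * (Ioi b).indicator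
      (fun r => (r ^ 6)⁻¹ * (1 / b - 1 / r)) r =
      (Ioi b).indicator (fun r => 1 / b * r ^ (-4 : ℝ) - r ^ (-5 : ℝ)) r := by
    intro r hr
    have hr0 : 0 < r := hr
    by_cases h : b < r
    · rw [indicator_of_mem (mem_Ioi.2 h), indicator_of_mem (mem_Ioi.2 h)]
      have e4 : r ^ (-4 : ℝ) = (r ^ 4)⁻¹ := by
        rw [Real.rpow_neg hr0.le]
        norm_cast
      have e5 : r ^ (-5 : ℝ) = (r ^ 5)⁻¹ := by
        rw [Real.rpow_neg hr0.le]
        norm_cast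
      rw [e4, e5]
      field_simp
    · rw [indicator_of_notMem (fun h' => h (mem_Ioi.1 h')),
        indicator_of_notMem (fun h' => h (mem_Ioi.1 h')), mul_zero]
  have i4 : IntegrableOn (fun r : ℝ => r ^ (-4 : ℝ)) (Ioi b) :=
    integrableOn_Ioi_rpow_of_lt (by norm_num) hb
  have i5 : IntegrableOn (fun r : ℝ => r ^ (-5 : ℝ)) (Ioi b) :=
    integrableOn_Ioi_rpow_of_lt (by norm_num) hb
  have hII : IntegrableOn (fun r : ℝ => 1 / b * r ^ (-4 : ℝ) - r ^ (-5 : ℝ)) (Ioi b) :=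
    (i4.const_mul _).sub i5
  rw [hind]
  constructor
  · rw [polar_integrable (fun r => (Ioi b).indicator (fun r => (r ^ 6)⁻¹ * (1 / b - 1 / r)) r),
      integrableOn_congr_fun hind2 measurableSet_Ioi]
    exact ((integrable_indicator_iff measurableSet_Ioi).2 hII).integrableOn
  · rw [polar (fun r => (Ioi b).indicator (fun r => (r ^ 6)⁻¹ * (1 / b - 1 / r)) r),
      setIntegral_congr_fun measurableSet_Ioi hind2, setIntegral_indicator measurableSet_Ioi]
    have h1 : Ioi (0 : ℝ) ∩ Ioi b = Ioi b := inter_eq_right.2 fun r hr => hb.trans hr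
    rw [h1, integral_sub (i4.const_mul _) i5, integral_const_mul,
      integral_Ioi_rpow_of_lt (by norm_num) hb, integral_Ioi_rpow_of_lt (by norm_num) hb]
    have e3 : b ^ ((-4 : ℝ) + 1) = (b ^ 3)⁻¹ := by
      rw [show (-4 : ℝ) + 1 = -(3 : ℝ) by norm_num, Real.rpow_neg hb.le]
      norm_cast
    have e4 : b ^ ((-5 : ℝ) + 1) = (b ^ 4)⁻¹ := by
      rw [show (-5 : ℝ) + 1 = -(4 : ℝ) by norm_num, Real.rpow_neg hb.le]
      norm_cast
    rw [e3, e4]
    field_simp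
    norm_num

/-- the integral inequality for the potential -/
lemma uu_bound {Z μ M : ℝ} {ρ : E3 → ℝ} (h : EA Z μ ρ) (hM0 : 0 ≤ M)
    (hM : ∀ v : E3, v ≠ 0 → ‖v‖ ^ 4 * uu Z μ ρ v ≤ M) {x : E3} (hx : x ≠ 0) :
    ‖x‖ ^ 4 * uu Z μ ρ x ≤ (Z - ∫ y, ρ y) * ‖x‖ ^ 3 - μ * ‖x‖ ^ 4 + √M ^ 3 * (Real.pi / 3) := by
  have hb : 0 < ‖x‖ := norm_pos_iff.2 hx
  set b := ‖x‖ with hbd
  obtain ⟨j1, j2⟩ := tail_int hb
  have hi : Integrable (fun y => ρ y * (1 / b - 1 / max b ‖y‖)) := by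
    refine ((h.nice.2.1.mul_const (1 / b)).sub (int_max h.nice hb)).congr
      (Eventually.of_forall fun y => ?_)
    simp only [Pi.sub_apply]
    ring
  have h1 : ∫ y, ρ y * (1 / b - 1 / max b ‖y‖) ≤ √M ^ 3 * (Real.pi / 3 / b ^ 4) := by
    rw [← j2, ← integral_const_mul]
    refine integral_mono hi (j1.const_mul _) fun y => ?_
    by_cases hy : b < ‖y‖
    · have hy0 : 0 < ‖y‖ := hb.trans hy
      have hyne : y ≠ 0 := norm_pos_iff.1 hy0
      simp only
      rw [indicator_of_mem (by simpa using hy), max_eq_right hy.le]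
      have h2 : ρ y ≤ √M ^ 3 * (‖y‖ ^ 6)⁻¹ := by
        rw [h.eq' y, be_sqrt]
        have h3 := hM y hyne
        have h4 : max (uu Z μ ρ y) 0 ≤ M / ‖y‖ ^ 4 := by
          refine max_le ?_ (by positivity)
          rw [le_div_iff₀ (by positivity)]
          linarith
        have h5 : √(max (uu Z μ ρ y) 0) ≤ √M / ‖y‖ ^ 2 := by
          refine (Real.sqrt_le_sqrt h4).trans (le_of_eq ?_)
          rw [Real.sqrt_div hM0, show ‖y‖ ^ 4 = (‖y‖ ^ 2) ^ 2 by ring,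
            Real.sqrt_sq (by positivity)]
        calc √(max (uu Z μ ρ y) 0) ^ 3 ≤ (√M / ‖y‖ ^ 2) ^ 3 :=
              pow_le_pow_left₀ (Real.sqrt_nonneg _) h5 3
          _ = √M ^ 3 * (‖y‖ ^ 6)⁻¹ := by
              rw [div_pow, ← pow_mul]
              rfl
      have h6 : 0 ≤ 1 / b - 1 / ‖y‖ := by
        rw [sub_nonneg]
        exact one_div_le_one_div_of_le hb hy.le
      calc ρ y * (1 / b - 1 / ‖y‖) ≤ √M ^ 3 * (‖y‖ ^ 6)⁻¹ * (1 / b - 1 / ‖y‖) :=
            mul_le_mul_of_nonneg_right h2 h6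
        _ = _ := by ring
    · simp only
      rw [indicator_of_notMem (by simpa using hy), mul_zero]
      push Not at hy
      rw [max_eq_left hy, sub_self, mul_zero]
  rw [uu_eq h hx]
  have h7 : b ^ 4 * (∫ y, ρ y * (1 / b - 1 / max b ‖y‖)) ≤ √M ^ 3 * (Real.pi / 3) := by
    calc b ^ 4 * (∫ y, ρ y * (1 / b - 1 / max b ‖y‖)) ≤ b ^ 4 * (√M ^ 3 * (Real.pi / 3 / b ^ 4)) :=
          mul_le_mul_of_nonneg_left h1 (by positivity)
      _ = _ := by field_simp
  have h8 : b ^ 4 * ((Z - ∫ y, ρ y) / b) = (Z - ∫ y, ρ y) * b ^ 3 := by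
    field_simp
  calc b ^ 4 * ((Z - ∫ y, ρ y) / b - μ + ∫ y, ρ y * (1 / b - 1 / max b ‖y‖)) =
        b ^ 4 * ((Z - ∫ y, ρ y) / b) - μ * b ^ 4 +
          b ^ 4 * (∫ y, ρ y * (1 / b - 1 / max b ‖y‖)) := by ring
    _ ≤ _ := by rw [h8]; linarith

/-- the family of all densities of the atom -/
noncomputable def fam (Z μ : ℝ) : E3 → ℝ :=
  open Classical in if h : 0 < Z ∧ 0 < μ then (exists_EA h.1 h.2).choose else 0

lemma fam_EA {Z μ : ℝ} (hZ : 0 < Z) (hμ : 0 < μ) : EA Z μ (fam Z μ) := by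
  unfold fam
  rw [dif_pos ⟨hZ, hμ⟩]
  exact (exists_EA hZ hμ).choose_spec

/-- the ionic charge tends to zero with the chemical potential -/
lemma charge_small {Z : ℝ} (hZ : 0 < Z) {ε μ₁ : ℝ} (hε : 0 < ε) (hμ₁ : 0 < μ₁) :
    ∃ μ, 0 < μ ∧ μ ≤ μ₁ ∧ Z - ∫ y, fam Z μ y < ε := by
  by_contra hcon
  push Not at hcon
  have key : ∀ μ, 0 < μ → μ ≤ μ₁ →
      √μ ^ 3 * (4 / 3 * Real.pi * (ε / (2 * μ)) ^ 3) ≤ Z := by
    intro μ hμ hμ1
    have hE := fam_EA hZ hμ
    have hq := hcon μ hμ hμ1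
    have hA : 0 < ε / (2 * μ) := by positivity
    have h1 : ∀ v : E3, (ball (0 : E3) (ε / (2 * μ)) \ {0}).indicator (fun _ => √μ ^ 3) v ≤
        fam Z μ v := by
      intro v
      by_cases hv : v ∈ ball (0 : E3) (ε / (2 * μ)) \ {0}
      · rw [indicator_of_mem hv]
        have hv1 : ‖v‖ < ε / (2 * μ) := mem_ball_zero_iff.1 hv.1
        have hv0 : v ≠ 0 := hv.2
        have hvp : 0 < ‖v‖ := norm_pos_iff.2 hv0
        have h2 := uu_ge hE hv0
        have h3 : 2 * μ ≤ ε / ‖v‖ := by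
          rw [lt_div_iff₀ (by positivity)] at hv1
          rw [le_div_iff₀ hvp]
          linarith
        have h4 : ε / ‖v‖ ≤ (Z - ∫ y, fam Z μ y) / ‖v‖ :=
          div_le_div_of_nonneg_right hq hvp.le
        rw [hE.eq' v, be_sqrt]
        refine pow_le_pow_left₀ (Real.sqrt_nonneg _) (Real.sqrt_le_sqrt ?_) 3
        refine le_trans ?_ (le_max_left _ _)
        linarith
      · rw [indicator_of_notMem hv]
        exact hE.nonneg v
    have h2 : ∫ v, (ball (0 : E3) (ε / (2 * μ)) \ {0}).indicator (fun _ => √μ ^ 3) v ≤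
        ∫ v, fam Z μ v := by
      refine integral_mono ?_ hE.nice.2.1 h1
      refine (integrable_indicator_iff (measurableSet_ball.diff (measurableSet_singleton _))).2 ?_
      refine integrableOn_const ?_
      exact ne_top_of_le_ne_top measure_ball_lt_top.ne (measure_mono Set.sdiff_subset)
    rw [integral_indicator (measurableSet_ball.diff (measurableSet_singleton _)),
      setIntegral_const] at h2
    have h3 : (volume : Measure E3).real (ball (0 : E3) (ε / (2 * μ)) \ {0}) =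
        4 / 3 * Real.pi * (ε / (2 * μ)) ^ 3 := by
      rw [measureReal_def, measure_sdiff_null (by simp), EuclideanSpace.volume_ball_fin_three,
        ENNReal.toReal_mul, ENNReal.toReal_pow, ENNReal.toReal_ofReal hA.le,
        ENNReal.toReal_ofReal (by positivity)]
      ring
    rw [h3, smul_eq_mul] at h2
    have h4 := charge_pos hZ hμ hE
    calc √μ ^ 3 * (4 / 3 * Real.pi * (ε / (2 * μ)) ^ 3) =
          4 / 3 * Real.pi * (ε / (2 * μ)) ^ 3 * √μ ^ 3 := by ring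
      _ ≤ Z := h2.trans h4.le
  -- the left hand side is `(π/6) ε³ / √μ ^ 3`
  have key2 : ∀ s, 0 < s → s ≤ √μ₁ → Real.pi / 6 * ε ^ 3 ≤ Z * s ^ 3 := by
    intro s hs hs1
    have h1 : s ^ 2 ≤ μ₁ := by
      have := pow_le_pow_left₀ hs.le hs1 2
      rwa [Real.sq_sqrt hμ₁.le] at this
    have h2 := key (s ^ 2) (by positivity) h1
    rw [Real.sqrt_sq hs.le] at h2
    have h3 : s ^ 3 * (4 / 3 * Real.pi * (ε / (2 * s ^ 2)) ^ 3) =
        Real.pi / 6 * ε ^ 3 / s ^ 3 := by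
      field_simp
      ring
    rw [h3, div_le_iff₀ (by positivity)] at h2
    exact h2
  have hlim : Tendsto (fun s : ℝ => Z * s ^ 3) (𝓝[>] 0) (𝓝 (Z * 0 ^ 3)) :=
    (Continuous.tendsto (by fun_prop) 0).mono_left nhdsWithin_le_nhds
  have hev : ∀ᶠ s : ℝ in 𝓝[>] 0, Real.pi / 6 * ε ^ 3 ≤ Z * s ^ 3 := by
    have h1 : Ioo 0 (√μ₁) ∈ 𝓝[>] (0 : ℝ) := Ioo_mem_nhdsGT (Real.sqrt_pos.2 hμ₁)
    filter_upwards [h1] with s hs
    exact key2 s hs.1 hs.2.le
  have h2 := ge_of_tendsto hlim hev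
  have h3 : 0 < Real.pi / 6 * ε ^ 3 := by positivity
  norm_num at h2
  linarith

/-- intermediate value -/
lemma exists_zero {Z μ : ℝ} (hZ : 0 < Z) (hμ : 0 < μ) {y : E3} (hy : y ≠ 0)
    (hyp : 0 < uu Z μ (fam Z μ) y) : ∃ μ', μ < μ' ∧ uu Z μ' (fam Z μ') y = 0 := by
  have hb : 0 < ‖y‖ := norm_pos_iff.2 hy
  set F : ℝ → ℝ := fun m => uu Z m (fam Z m) y with hF
  set m1 := max (μ + 1) (Z / ‖y‖ + 1) with hm1
  have hle : μ ≤ m1 := le_trans (by linarith) (le_max_left _ _)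
  have hcont : ContinuousOn F (Icc μ m1) := by
    have hlip : LipschitzOnWith 1 F (Icc μ m1) := by
      apply LipschitzOnWith.of_le_add_mul
      intro a ha b hb'
      have ha0 : 0 < a := hμ.trans_le ha.1
      have hb0 : 0 < b := hμ.trans_le hb'.1
      rw [NNReal.coe_one, one_mul, Real.dist_eq]
      rcases le_total a b with hab | hab
      · have := (uu_lip (fam_EA hZ ha0) (fam_EA hZ hb0) hab y).2
        have h2 : b - a ≤ |a - b| := by
          rw [abs_sub_comm]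
          exact le_abs_self _
        simp only [hF]
        linarith
      · have := (uu_lip (fam_EA hZ hb0) (fam_EA hZ ha0) hab y).1
        have h2 := abs_nonneg (a - b)
        simp only [hF]
        linarith
    exact hlip.continuousOn
  have hm1pos : 0 < m1 := hμ.trans_le hle
  have hneg : F m1 < 0 := by
    have h1 := uu_le (fam_EA hZ hm1pos) y
    have h2 : Z / ‖y‖ + 1 ≤ m1 := le_max_right _ _
    simp only [hF]
    linarith
  have hiv := intermediate_value_Icc' hle hcont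
  obtain ⟨m, hm, hm0⟩ := hiv ⟨hneg.le, hyp.le⟩
  refine ⟨m, ?_, hm0⟩
  rcases hm.1.lt_or_eq with h | h
  · exact h
  · rw [← h] at hm0
    simp only [hF] at hm0
    linarith

/-- **the main point**: the differences are not monotone in the chemical potential -/
theorem not_mono {Z : ℝ} (hZ : 0 < Z) : ∃ μ μ' : ℝ, 0 < μ ∧ μ < μ' ∧ ∃ x y : E3, x ≠ 0 ∧
    ‖x‖ < ‖y‖ ∧ fam Z μ x - fam Z μ y < fam Z μ' x - fam Z μ' y := by
  by_contra hcon
  push Not at hcon
  set K : ℝ := 9 / (4 * Real.pi ^ 2) with hK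
  have hpi := Real.pi_pos
  have hK0 : 0 < K := by positivity
  have hA : ∀ μ, 0 < μ → ∀ y : E3, y ≠ 0 → ‖y‖ ^ 4 * uu Z μ (fam Z μ) y ≤ K := by
    intro μ hμ y hy
    rcases le_or_gt (uu Z μ (fam Z μ) y) 0 with h | h
    · have h1 : ‖y‖ ^ 4 * uu Z μ (fam Z μ) y ≤ 0 :=
        mul_nonpos_of_nonneg_of_nonpos (by positivity) h
      linarith
    · obtain ⟨μ', hμ', h0⟩ := exists_zero hZ hμ hy h
      refine step (fam_EA hZ hμ) (fam_EA hZ (hμ.trans hμ')) hμ'.le hy h0 h fun x hx hxy => ?_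
      exact hcon μ μ' hμ hμ' x y hx hxy
  -- the supremum
  set S : Set ℝ := {s | ∃ μ, 0 < μ ∧ ∃ y : E3, y ≠ 0 ∧ s = ‖y‖ ^ 4 * uu Z μ (fam Z μ) y} with hS
  have hbdd : BddAbove S := by
    refine ⟨K, ?_⟩
    rintro s ⟨μ, hμ, y, hy, rfl⟩
    exact hA μ hμ y hy
  obtain ⟨s0, hs0, hs0p⟩ : ∃ s ∈ S, 0 < s := by
    obtain ⟨r, hr, hp⟩ := near_pos hZ (fam_EA hZ one_pos)
    have hx : ‖((r / 2) • e1 : E3)‖ = r / 2 := norm_smul_e1 (by positivity)
    have hne : ((r / 2) • e1 : E3) ≠ 0 := by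
      rw [← norm_pos_iff, hx]
      positivity
    have h1 := hp _ hne (by rw [hx]; linarith)
    refine ⟨_, ⟨1, one_pos, _, hne, rfl⟩, ?_⟩
    have : 0 < ‖((r / 2) • e1 : E3)‖ := norm_pos_iff.2 hne
    positivity
  have hSne : S.Nonempty := ⟨s0, hs0⟩
  set M := sSup S with hM
  have hM0 : 0 < M := hs0p.trans_le (le_csSup hbdd hs0)
  have hMK : M ≤ K := csSup_le hSne (by
    rintro s ⟨μ, hμ, y, hy, rfl⟩
    exact hA μ hμ y hy)
  have hstep : M ≤ √M ^ 3 * (Real.pi / 3) := by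
    refine csSup_le hSne ?_
    rintro s ⟨μ, hμ, y, hy, rfl⟩
    refine le_of_forall_pos_le_add fun ε hε => ?_
    have hb : 0 < ‖y‖ := norm_pos_iff.2 hy
    obtain ⟨m, hm, hmμ, hq⟩ := charge_small hZ (ε := ε / ‖y‖ ^ 3) (by positivity) hμ
    have h1 := uu_bound (fam_EA hZ hm) hM0.le
      (fun v hv => le_csSup hbdd ⟨m, hm, v, hv, rfl⟩) hy
    have h2 := (uu_lip (fam_EA hZ hm) (fam_EA hZ hμ) hmμ y).1
    have h3 : ‖y‖ ^ 4 * uu Z μ (fam Z μ) y ≤ ‖y‖ ^ 4 * uu Z m (fam Z m) y :=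
      mul_le_mul_of_nonneg_left h2 (by positivity)
    have h4 : (Z - ∫ v, fam Z m v) * ‖y‖ ^ 3 ≤ ε := by
      have := mul_le_mul_of_nonneg_right hq.le (by positivity : (0 : ℝ) ≤ ‖y‖ ^ 3)
      rwa [div_mul_cancel₀ _ (by positivity)] at this
    have h5 : 0 ≤ m * ‖y‖ ^ 4 := by positivity
    linarith
  -- contradiction
  have h1 : √M ≤ 3 / (2 * Real.pi) := by
    rw [Real.sqrt_le_left (by positivity)]
    refine hMK.trans (le_of_eq ?_)
    rw [hK, div_pow]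
    ring
  have h2 : √M ^ 3 = M * √M := by
    rw [pow_succ, Real.sq_sqrt hM0.le]
  have h3 : √M ^ 3 * (Real.pi / 3) ≤ M / 2 := by
    rw [h2]
    have : M * √M * (Real.pi / 3) ≤ M * (3 / (2 * Real.pi)) * (Real.pi / 3) := by gcongr
    refine this.trans (le_of_eq ?_)
    field_simp
  linarith

end Pool.Agent.Q204.TFM
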