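import Pool.Agent.Q204.TFM.SA3

/-!
# Thomas-Fermi molecules: grand canonical energy and dilations
-/

set_option autoImplicit false
open MeasureTheory Set Filter Topology Metric
open scoped RealInnerProductSpace BigOperators ENNReal
open Pool.Agent.Helper557 Pool.Agent.Helper557.TFP Pool.Agent.H9R2.TF

namespace Pool.Agent.Q204.TFM

variable {k : ℕ}

/-! ### existence for molecules -/

lemma barrier_le {g : ℝ → ℝ} (hg : Monotone g) (hg0 : ∀ t, 0 ≤ g t) (hgz : ∀ t, t ≤ 0 → g t = 0)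
    {z : Fin k → ℝ} (hz : ∀ j, 0 ≤ z j) (S : Fin k → E3) {Φ : ℝ} (hΦ : 0 < Φ) (x : E3) :
    g (VV z S x - Φ) ≤ ∑ j, g ((k * z j + 1) / ‖x - S j‖ - Φ) := by
  rcases Nat.eq_zero_or_pos k with h0 | h0
  · subst h0
    have : VV z S x - Φ ≤ 0 := by
      unfold VV
      simp
      exact hΦ.le
    rw [hgz _ this]
    exact Finset.sum_nonneg fun j _ => hg0 _
  · have : Nonempty (Fin k) := ⟨⟨0, h0⟩⟩
    obtain ⟨j, -, hj⟩ := Finset.exists_max_image (Finset.univ : Finset (Fin k))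
      (fun j => z j / ‖x - S j‖) Finset.univ_nonempty
    have h1 : VV z S x ≤ (k * z j + 1) / ‖x - S j‖ := by
      unfold VV
      have h2 : ∑ i, z i / ‖x - S i‖ ≤ k * (z j / ‖x - S j‖) := by
        have := Finset.sum_le_card_nsmul Finset.univ (fun i => z i / ‖x - S i‖)
          (z j / ‖x - S j‖) (fun i hi => hj i hi)
        rwa [Finset.card_univ, Fintype.card_fin, nsmul_eq_mul] at this
      refine h2.trans ?_
      rw [← mul_div_assoc]
      exact div_le_div_of_nonneg_right (by linarith) (norm_nonneg _)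
    refine (hg (sub_le_sub_right h1 Φ)).trans ?_
    exact Finset.single_le_sum (f := fun j => g ((k * z j + 1) / ‖x - S j‖ - Φ))
      (fun i _ => hg0 _) (Finset.mem_univ j)

lemma nice_translate {f : E3 → ℝ} (hf : Nice f) (v : E3) : Nice (fun x => f (x - v)) := by
  obtain ⟨h1, h2, h3⟩ := hf
  exact ⟨h1.comp (measurable_id.sub_const v), h2.comp_sub_right v, h3.comp_sub_right v⟩

lemma nice_add {f g : E3 → ℝ} (hf : Nice f) (hg : Nice g) : Nice (fun x => f x + g x) := by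
  have h := nice_sub' hf (TF_hsub_nice_neg g hg)
  simpa using h

lemma nice_sum {ι : Type*} (s : Finset ι) (f : ι → E3 → ℝ) (hf : ∀ i ∈ s, Nice (f i)) :
    Nice (fun x => ∑ i ∈ s, f i x) := by
  classical
  induction s using Finset.induction_on with
  | empty =>
    simp only [Finset.sum_empty]
    refine ⟨measurable_const, integrable_zero _ _ _, ?_⟩
    have : (fun _ : E3 => |(0 : ℝ)| ^ (5/3 : ℝ)) = fun _ => 0 := by
      funext _
      rw [abs_zero]
      exact Real.zero_rpow (by norm_num)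
    rw [this]
    exact integrable_zero _ _ _
  | insert a s ha ih =>
    simp only [Finset.sum_insert ha]
    exact nice_add (hf a (Finset.mem_insert_self a s))
      (ih fun i hi => hf i (Finset.mem_insert_of_mem hi))

lemma Bf_mono : Monotone Bf := by
  intro u v h
  unfold Bf
  have := Real.rpow_le_rpow (le_max_right u 0) (max_le_max_right 0 h) (by norm_num : (0:ℝ) ≤ 5/2)
  linarith

/-- existence of solutions for molecules -/
theorem exists_mol {z : Fin k → ℝ} (hz : ∀ j, 0 ≤ z j) (S : Fin k → E3) {Φ : ℝ} (hΦ : 0 < Φ) :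
    ∃ ρ, ELs z S Φ ρ := by
  set ρh : E3 → ℝ := fun x => ∑ j, be ((k * z j + 1) / ‖x - S j‖ - Φ) with hρh
  have hw : ∀ j, 0 < (k : ℝ) * z j + 1 := fun j => by
    have := mul_nonneg (Nat.cast_nonneg k : (0 : ℝ) ≤ k) (hz j)
    linarith
  have hn : Nice ρh := nice_sum _ _ fun j _ => nice_translate (barrier_nice (hw j) hΦ) (S j)
  have hh : Measurable (fun x : E3 => VV z S x - Φ) := (VV_meas z S).sub_const Φ
  have hi : Integrable (fun x : E3 => (VV z S x - Φ) * ρh x) := by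
    have h1 := (vint z S hn).sub (hn.2.1.const_mul Φ)
    refine h1.congr (Eventually.of_forall fun x => ?_)
    simp only [Pi.sub_apply]
    ring
  obtain ⟨τ, hτ, he⟩ := exists_EL (h := fun x : E3 => VV z S x - Φ) (kop_full hn) hn
    (fun x => Finset.sum_nonneg fun j _ => be_nonneg _) hh hi
  refine ⟨τ, hτ.nice hn, fun x => ?_⟩
  rw [he x, min_eq_right]
  · congr 1
    ring
  · refine (be_mono ?_).trans (barrier_le be_mono be_nonneg (fun t => be_zero_of) hz S hΦ x)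
    have := pot_nonneg (fun y => (hτ.2 y).1) x
    linarith

/-- the bound of the kinetic energy -/
noncomputable def kb (z : Fin k → ℝ) (Φ : ℝ) : ℝ :=
  5 / 2 * ∑ j, ∫ x : E3, Bf ((k * z j + 1) / ‖x‖ - Φ)

lemma kb_nonneg (z : Fin k → ℝ) (Φ : ℝ) : 0 ≤ kb z Φ :=
  mul_nonneg (by norm_num) (Finset.sum_nonneg fun _ _ => integral_nonneg fun _ => Bf_nonneg _)

lemma kin_le {z : Fin k → ℝ} (hz : ∀ j, 0 ≤ z j) {S : Fin k → E3} {Φ : ℝ} (hΦ : 0 < Φ)
    {ρ : E3 → ℝ} (h : ELs z S Φ ρ) : ∫ x, ρ x ^ (5/3 : ℝ) ≤ kb z Φ := by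
  have hw : ∀ j, 0 < (k : ℝ) * z j + 1 := fun j => by
    have := mul_nonneg (Nat.cast_nonneg k : (0 : ℝ) ≤ k) (hz j)
    linarith
  have hi : ∀ j, Integrable (fun x : E3 => Bf ((k * z j + 1) / ‖x‖ - Φ)) := by
    intro j
    have h1 := (barrier_nice (hw j) hΦ).2.2
    refine (h1.const_mul (2 / 5)).congr (Eventually.of_forall fun x => ?_)
    simp only
    rw [abs_of_nonneg (be_nonneg _), be_pow53]
    ring
  have hi' : ∀ j, Integrable (fun x : E3 => Bf ((k * z j + 1) / ‖x - S j‖ - Φ)) := fun j =>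
    (hi j).comp_sub_right (S j)
  have h1 : ∫ x, ρ x ^ (5/3 : ℝ) ≤
      ∫ x, 5 / 2 * ∑ j, Bf ((k * z j + 1) / ‖x - S j‖ - Φ) := by
    refine integral_mono h.int53 ((integrable_finsetSum _ fun j _ => hi' j).const_mul _)
      fun x => ?_
    simp only
    rw [h.eq x, be_pow53]
    refine mul_le_mul_of_nonneg_left ?_ (by norm_num)
    refine (Bf_mono ?_).trans (barrier_le Bf_mono Bf_nonneg (fun t => Bf_zero_of) hz S hΦ x)
    have := pot_nonneg h.nonneg x
    linarith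
  refine h1.trans (le_of_eq ?_)
  rw [integral_const_mul, integral_finsetSum _ fun j _ => hi' j]
  unfold kb
  congr 1
  refine Finset.sum_congr rfl fun j _ => ?_
  exact integral_sub_right_eq_self (fun x : E3 => Bf ((k * z j + 1) / ‖x‖ - Φ)) (S j)

/-! ### dilation of densities -/

lemma adm_sc {s : ℝ} (hs : 0 < s) {ρ : E3 → ℝ} (h : Adm ρ) : Adm (fun x => s ^ 3 * ρ (s • x)) := by
  refine ⟨(h.1.comp (measurable_const_smul s)).const_mul _,
    fun x => mul_nonneg (by positivity) (h.2.1 _), ?_, ?_⟩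
  · exact (h.2.2.1.comp_smul hs.ne').const_mul _
  · refine ((h.2.2.2.comp_smul hs.ne').const_mul ((s ^ 3) ^ (5/3 : ℝ))).congr
      (Eventually.of_forall fun x => ?_)
    simp only
    rw [Real.mul_rpow (by positivity) (h.2.1 _)]

lemma mass_sc {s : ℝ} (hs : 0 < s) (ρ : E3 → ℝ) :
    ∫ x, s ^ 3 * ρ (s • x) = ∫ x, ρ x := by
  rw [integral_const_mul, int_dil hs]
  field_simp

lemma EF_sc {s : ℝ} (hs : 0 < s) (z : Fin k → ℝ) (S : Fin k → E3) {ρ : E3 → ℝ}
    (hρ : ∀ x, 0 ≤ ρ x) :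
    EF z S (fun x => s ^ 3 * ρ (s • x)) = s ^ 2 * (3 / 5 * ∫ x, ρ x ^ (5/3 : ℝ)) -
      s * (∫ x, VV z (fun j => s • S j) x * ρ x) + s * (1 / 2 * ∫ x, ρ x * pot ρ x) := by
  have hnorm : ∀ x y : E3, ‖s • x - s • y‖ = s * ‖x - y‖ := by
    intro x y
    rw [← smul_sub, norm_smul, Real.norm_of_nonneg hs.le]
  have e1 : ∫ x, (s ^ 3 * ρ (s • x)) ^ (5/3 : ℝ) = s ^ 2 * ∫ x, ρ x ^ (5/3 : ℝ) := by
    have h1 : ∀ x, (s ^ 3 * ρ (s • x)) ^ (5/3 : ℝ) = s ^ 5 * (fun y => ρ y ^ (5/3 : ℝ)) (s • x) := by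
      intro x
      rw [Real.mul_rpow (by positivity) (hρ _), ← Real.rpow_natCast s 3, ← Real.rpow_mul hs.le]
      norm_num
    simp only [h1]
    rw [integral_const_mul, int_dil hs (fun y => ρ y ^ (5/3 : ℝ))]
    field_simp
  have e2 : ∫ x, VV z S x * (s ^ 3 * ρ (s • x)) = s * ∫ x, VV z (fun j => s • S j) x * ρ x := by
    have h1 : ∀ x, VV z S x * (s ^ 3 * ρ (s • x)) =
        s ^ 4 * (fun y => VV z (fun j => s • S j) y * ρ y) (s • x) := by
      intro x
      simp only [VV]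
      rw [Finset.sum_mul, Finset.sum_mul, Finset.mul_sum]
      refine Finset.sum_congr rfl fun j _ => ?_
      rw [hnorm]
      by_cases hx : ‖x - S j‖ = 0
      · rw [hx]
        simp
      · field_simp
    simp only [h1]
    rw [integral_const_mul, int_dil hs (fun y => VV z (fun j => s • S j) y * ρ y)]
    field_simp
  have hpot : ∀ x, pot (fun y => s ^ 3 * ρ (s • y)) x = s * pot ρ (s • x) := by
    intro x
    unfold pot
    have h2 : ∀ y, s ^ 3 * ρ (s • y) / ‖x - y‖ =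
        s ^ 4 * (fun y => ρ y / ‖s • x - y‖) (s • y) := by
      intro y
      simp only
      rw [hnorm]
      by_cases hx : ‖x - y‖ = 0
      · rw [hx]
        simp
      · field_simp
    simp only [h2]
    rw [integral_const_mul, int_dil hs (fun y => ρ y / ‖s • x - y‖)]
    field_simp
  have e3 : ∫ x, s ^ 3 * ρ (s • x) * pot (fun y => s ^ 3 * ρ (s • y)) x =
      s * ∫ x, ρ x * pot ρ x := by
    have h1 : ∀ x, s ^ 3 * ρ (s • x) * pot (fun y => s ^ 3 * ρ (s • y)) x =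
        s ^ 4 * (fun x => ρ x * pot ρ x) (s • x) := by
      intro x
      rw [hpot]
      ring
    simp only [h1]
    rw [integral_const_mul, int_dil hs (fun x => ρ x * pot ρ x)]
    field_simp
  unfold EF
  rw [e1, e2, e3]
  ring

/-- the solutions for the dilated molecules -/
noncomputable def sol (z : Fin k → ℝ) (S : Fin k → E3) (Φ : ℝ) : E3 → ℝ :=
  open Classical in if h : (∀ j, 0 ≤ z j) ∧ 0 < Φ then (exists_mol h.1 S h.2).choose else 0

lemma sol_EL {z : Fin k → ℝ} (hz : ∀ j, 0 ≤ z j) (S : Fin k → E3) {Φ : ℝ} (hΦ : 0 < Φ) :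
    ELs z S Φ (sol z S Φ) := by
  unfold sol
  rw [dif_pos ⟨hz, hΦ⟩]
  exact (exists_mol hz S hΦ).choose_spec

/-- the grand canonical energy of the molecule dilated by `l` -/
noncomputable def Om (z : Fin k → ℝ) (R : Fin k → E3) (Φ l : ℝ) : ℝ :=
  EF z (fun j => l • R j) (sol z (fun j => l • R j) Φ) +
    Φ * ∫ x, sol z (fun j => l • R j) Φ x

lemma Om_le {z : Fin k → ℝ} (hz : ∀ j, 0 ≤ z j) (R : Fin k → E3) {Φ : ℝ} (hΦ : 0 < Φ) (l : ℝ)
    {σ : E3 → ℝ} (hσ : Adm σ) : Om z R Φ l ≤ EF z (fun j => l • R j) σ + Φ * ∫ x, σ x :=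
  el_min' (sol_EL hz _ hΦ) hσ

/-- the local inequality -/
lemma Om_step {z : Fin k → ℝ} (hz : ∀ j, 0 ≤ z j) (R : Fin k → E3) {Φ : ℝ} (hΦ : 0 < Φ)
    {l' l : ℝ} (hl' : 0 < l') (hll : l' ≤ l) :
    Om z R Φ l' ≤ Om z R Φ l + (l / l' - 1) ^ 2 * kb z Φ := by
  have hl : 0 < l := hl'.trans_le hll
  have h := sol_EL hz (fun j => l • R j) hΦ
  set ρ := sol z (fun j => l • R j) Φ with hρ
  set s := l / l' with hs
  have hs0 : 0 < s := by positivity
  have hs1 : 1 ≤ s := (one_le_div hl').2 hll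
  have hA : Adm ρ := adm_of_nice h.nice h.nonneg
  have h1 := Om_le hz R hΦ l' (adm_sc hs0 hA)
  rw [mass_sc hs0, EF_sc hs0 z _ h.nonneg] at h1
  have h2 : (fun j => s • l' • R j) = fun j => l • R j := by
    funext j
    rw [smul_smul, hs, div_mul_cancel₀ _ hl'.ne']
  rw [h2] at h1
  have h3 := ThmM0 hz hΦ.le h
  rw [prod_pot h.nice] at h3
  have h4 := kin_le hz hΦ h
  have h5 : 0 ≤ ∫ x, ρ x ^ (5/3 : ℝ) := integral_nonneg fun x => Real.rpow_nonneg (h.nonneg x) _
  have h6 : Om z R Φ l = 3 / 5 * (∫ x, ρ x ^ (5/3 : ℝ)) -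
      (∫ x, VV z (fun j => l • R j) x * ρ x) + 1 / 2 * (∫ x, ρ x * pot ρ x) +
        Φ * ∫ x, ρ x := rfl
  rw [h6]
  set K := ∫ x, ρ x ^ (5/3 : ℝ) with hK
  set A := ∫ x, VV z (fun j => l • R j) x * ρ x with hAd
  set W := ∫ x, ρ x * pot ρ x with hW
  have h7 : (s - 1) * (6 / 5 * K - A + 1 / 2 * W) ≤ 0 :=
    mul_nonpos_of_nonneg_of_nonpos (by linarith) h3
  have h8 : (s - 1) ^ 2 * (3 / 5 * K) ≤ (s - 1) ^ 2 * kb z Φ :=
    mul_le_mul_of_nonneg_left (by linarith) (sq_nonneg _)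
  nlinarith

/-- a function with small increments in one direction is monotone -/
lemma mono_of_step {f : ℝ → ℝ} {C : ℝ} (hC : 0 ≤ C)
    (h : ∀ l' l : ℝ, 0 < l' → l' ≤ l → f l' ≤ f l + (l / l' - 1) ^ 2 * C) {l₁ l₂ : ℝ}
    (h₁ : 0 < l₁) (h₂ : l₁ ≤ l₂) : f l₁ ≤ f l₂ := by
  have key : ∀ q : ℝ, 1 ≤ q → ∀ n : ℕ, f l₁ ≤ f (l₁ * q ^ n) + n * (q - 1) ^ 2 * C := by
    intro q hq n
    induction n with
    | zero => simp
    | succ n ih =>
      have hq0 : 0 < q := by linarith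
      have h3 := h (l₁ * q ^ n) (l₁ * q ^ (n + 1)) (by positivity)
        (mul_le_mul_of_nonneg_left (pow_le_pow_right₀ hq (Nat.le_succ n)) h₁.le)
      have h4 : l₁ * q ^ (n + 1) / (l₁ * q ^ n) = q := by
        rw [pow_succ]
        field_simp
      rw [h4] at h3
      push_cast
      linarith
  set a := Real.log (l₂ / l₁) with ha
  have hl : 1 ≤ l₂ / l₁ := (one_le_div h₁).2 h₂
  have ha0 : 0 ≤ a := Real.log_nonneg hl
  have hea : Real.exp a = l₂ / l₁ := Real.exp_log (by linarith)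
  refine le_of_forall_pos_le_add fun ε hε => ?_
  obtain ⟨n, hn⟩ := exists_nat_gt (a ^ 2 * Real.exp (2 * a) * C / ε + 1)
  have hn1 : (1 : ℝ) < n := by
    have : 0 ≤ a ^ 2 * Real.exp (2 * a) * C / ε := by positivity
    linarith
  have hn0 : (0 : ℝ) < n := by linarith
  have hq : 1 ≤ Real.exp (a / n) := Real.one_le_exp (by positivity)
  have h3 := key (Real.exp (a / n)) hq n
  have h4 : l₁ * Real.exp (a / n) ^ n = l₂ := by
    rw [← Real.exp_nat_mul, mul_div_cancel₀ _ hn0.ne', hea]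
    field_simp
  rw [h4] at h3
  have h5 : Real.exp (a / n) - 1 ≤ a / n * Real.exp a := by
    have h6 : Real.exp (a / n) - 1 ≤ a / n * Real.exp (a / n) := by
      have h7 := Real.add_one_le_exp (-(a / n))
      have h8 : Real.exp (a / n) * Real.exp (-(a / n)) = 1 := by
        rw [← Real.exp_add]
        simp
      nlinarith [Real.exp_pos (a / n)]
    refine h6.trans (mul_le_mul_of_nonneg_left ?_ (by positivity))
    exact Real.exp_le_exp.2 (div_le_self ha0 hn1.le)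
  have h6 : n * (Real.exp (a / n) - 1) ^ 2 * C ≤ ε := by
    have h7 : (Real.exp (a / n) - 1) ^ 2 ≤ (a / n * Real.exp a) ^ 2 :=
      pow_le_pow_left₀ (by linarith) h5 2
    have h8 : (a / n * Real.exp a) ^ 2 = a ^ 2 * Real.exp (2 * a) / n ^ 2 := by
      rw [mul_pow, div_pow, two_mul, Real.exp_add]
      ring
    calc n * (Real.exp (a / n) - 1) ^ 2 * C ≤ n * (a ^ 2 * Real.exp (2 * a) / n ^ 2) * C := by
          rw [← h8]
          gcongr
      _ = a ^ 2 * Real.exp (2 * a) * C / n := by field_simp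
      _ ≤ ε := by
          rw [div_le_iff₀ hn0]
          have h9 : a ^ 2 * Real.exp (2 * a) * C / ε < n := by linarith
          rw [div_lt_iff₀ hε] at h9
          linarith
  linarith

/-- the grand canonical energy increases under dilation -/
theorem Om_mono {z : Fin k → ℝ} (hz : ∀ j, 0 ≤ z j) (R : Fin k → E3) {Φ : ℝ} (hΦ : 0 < Φ)
    {l₁ l₂ : ℝ} (h₁ : 0 < l₁) (h₂ : l₁ ≤ l₂) : Om z R Φ l₁ ≤ Om z R Φ l₂ :=
  mono_of_step (kb_nonneg z Φ) (fun _ _ hl' hll => Om_step hz R hΦ hl' hll) h₁ h₂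

end Pool.Agent.Q204.TFM
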