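import Pool.Agent.Q204.TFM.El1

/-!
# The electronic Thomas-Fermi energy increases under dilation
-/

set_option autoImplicit false
open MeasureTheory Set Filter Topology Metric
open scoped RealInnerProductSpace BigOperators ENNReal
open Pool.Agent.Helper557 Pool.Agent.Helper557.TFP Pool.Agent.H9R2.TF

namespace Pool.Agent.Q204.TFM

variable {k : ℕ}

/-- the electronic energy -/
noncomputable def el (z : Fin k → ℝ) (S : Fin k → E3) (lam : ℝ) : ℝ := en z S lam - Urep z S

lemma el_le {z : Fin k → ℝ} (hz : ∀ j, 0 ≤ z j) (S : Fin k → E3) {lam : ℝ} {σ : E3 → ℝ}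
    (hσ : Adm σ) (hm : ∫ x, σ x = lam) : el z S lam ≤ EF z S σ := by
  have h : en z S lam ≤ xi z S σ := csInf_le (en_bdd z hz S lam) ⟨σ, hσ, hm, rfl⟩
  rw [xi_eq] at h
  unfold el
  linarith

lemma le_el {z : Fin k → ℝ} {S : Fin k → E3} {lam c : ℝ} (hl : 0 ≤ lam)
    (h : ∀ σ, Adm σ → ∫ x, σ x = lam → c ≤ EF z S σ) : c ≤ el z S lam := by
  have h1 : c + Urep z S ≤ en z S lam := by
    refine le_csInf (en_nonempty z S lam hl) ?_
    rintro E ⟨σ, hσ, hm, rfl⟩
    rw [xi_eq]
    linarith [h σ hσ hm]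
  unfold el
  linarith

/-- convexity of the functional -/
lemma EF_convex {z : Fin k → ℝ} {S : Fin k → E3} {ρ σ : E3 → ℝ} (hρ : Adm ρ) (hσ : Adm σ)
    {a b : ℝ} (ha : 0 ≤ a) (hb : 0 ≤ b) (hab : a + b = 1) :
    Adm (fun x => a * ρ x + b * σ x) ∧
      ∫ x, (a * ρ x + b * σ x) = a * (∫ x, ρ x) + b * ∫ x, σ x ∧
      EF z S (fun x => a * ρ x + b * σ x) ≤ a * EF z S ρ + b * EF z S σ := by
  have nρ := nice_of_adm hρ
  have nσ := nice_of_adm hσ
  have hconv : ∀ x, (a * ρ x + b * σ x) ^ (5/3 : ℝ) ≤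
      a * ρ x ^ (5/3 : ℝ) + b * σ x ^ (5/3 : ℝ) := by
    intro x
    have h := (convexOn_rpow (by norm_num : (1 : ℝ) ≤ 5/3)).2 (mem_Ici.2 (hρ.2.1 x))
      (mem_Ici.2 (hσ.2.1 x)) ha hb hab
    simpa [smul_eq_mul] using h
  have nn : Nice (fun x => a * ρ x + b * σ x) :=
    nice_add (nice_smul nρ a) (nice_smul nσ b)
  have hA : Adm (fun x => a * ρ x + b * σ x) := adm_of_nice nn fun x =>
    add_nonneg (mul_nonneg ha (hρ.2.1 x)) (mul_nonneg hb (hσ.2.1 x))
  refine ⟨hA, ?_, ?_⟩
  · rw [integral_add (nρ.2.1.const_mul a) (nσ.2.1.const_mul b), integral_const_mul,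
      integral_const_mul]
  · have k1 : ∫ x, (a * ρ x + b * σ x) ^ (5/3 : ℝ) ≤
        a * (∫ x, ρ x ^ (5/3 : ℝ)) + b * ∫ x, σ x ^ (5/3 : ℝ) := by
      rw [← integral_const_mul, ← integral_const_mul,
        ← integral_add (hρ.2.2.2.const_mul a) (hσ.2.2.2.const_mul b)]
      exact integral_mono hA.2.2.2 ((hρ.2.2.2.const_mul a).add (hσ.2.2.2.const_mul b)) hconv
    have k2 : ∫ x, VV z S x * (a * ρ x + b * σ x) =
        a * (∫ x, VV z S x * ρ x) + b * ∫ x, VV z S x * σ x := by
      rw [← integral_const_mul, ← integral_const_mul,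
        ← integral_add ((vint z S nρ).const_mul a) ((vint z S nσ).const_mul b)]
      refine integral_congr_ae (Eventually.of_forall fun x => ?_)
      simp only
      ring
    have hpot : ∀ x, pot (fun y => a * ρ y + b * σ y) x = a * pot ρ x + b * pot σ x := by
      intro x
      have h1 : (fun y => a * ρ y + b * σ y) = fun y => a * ρ y - (-b) * σ y := by
        funext y
        ring
      rw [h1, pot_sub (nice_smul nρ a) (nice_smul nσ (-b))]
      have h2 : ∀ (c : ℝ) (f : E3 → ℝ), pot (fun y => c * f y) x = c * pot f x := by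
        intro c f
        unfold pot
        rw [← integral_const_mul]
        refine integral_congr_ae (Eventually.of_forall fun y => ?_)
        simp only
        ring
      rw [h2, h2]
      ring
    have j1 := TF_E1_int ρ ρ nρ.2.1 nρ
    have j2 := TF_E1_int ρ σ nρ.2.1 nσ
    have j3 := TF_E1_int σ ρ nσ.2.1 nρ
    have j4 := TF_E1_int σ σ nσ.2.1 nσ
    have k3 : ∫ x, (a * ρ x + b * σ x) * pot (fun y => a * ρ y + b * σ y) x =
        a ^ 2 * (∫ x, ρ x * pot ρ x) + 2 * (a * b) * (∫ x, ρ x * pot σ x) +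
          b ^ 2 * ∫ x, σ x * pot σ x := by
      have e0 : ∀ x, (a * ρ x + b * σ x) * pot (fun y => a * ρ y + b * σ y) x =
          (a ^ 2 * (ρ x * pot ρ x) + a * b * (ρ x * pot σ x)) +
            (a * b * (σ x * pot ρ x) + b ^ 2 * (σ x * pot σ x)) := by
        intro x
        rw [hpot]
        ring
      simp only [e0]
      have e1 : ∫ x, ((a ^ 2 * (ρ x * pot ρ x) + a * b * (ρ x * pot σ x)) +
            (a * b * (σ x * pot ρ x) + b ^ 2 * (σ x * pot σ x))) =
          (∫ x, (a ^ 2 * (ρ x * pot ρ x) + a * b * (ρ x * pot σ x))) +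
            ∫ x, (a * b * (σ x * pot ρ x) + b ^ 2 * (σ x * pot σ x)) :=
        integral_add ((j1.const_mul _).add (j2.const_mul _))
          ((j3.const_mul _).add (j4.const_mul _))
      rw [e1, integral_add (j1.const_mul _) (j2.const_mul _),
        integral_add (j3.const_mul _) (j4.const_mul _), integral_const_mul, integral_const_mul,
        integral_const_mul, integral_const_mul, TF_E1_symm σ ρ nσ nρ]
      ring
    have hpd := pot_pos (nice_sub' nρ nσ)
    have hsplit : ∫ x, (ρ x - σ x) * pot (fun y => ρ y - σ y) x =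
        (∫ x, ρ x * pot ρ x) - 2 * (∫ x, ρ x * pot σ x) + ∫ x, σ x * pot σ x := by
      have e0 : ∀ x, (ρ x - σ x) * pot (fun y => ρ y - σ y) x =
          (ρ x * pot ρ x - ρ x * pot σ x) - (σ x * pot ρ x - σ x * pot σ x) := by
        intro x
        rw [pot_sub nρ nσ]
        ring
      simp only [e0]
      have e1 : ∫ x, ((ρ x * pot ρ x - ρ x * pot σ x) - (σ x * pot ρ x - σ x * pot σ x)) =
          (∫ x, (ρ x * pot ρ x - ρ x * pot σ x)) - ∫ x, (σ x * pot ρ x - σ x * pot σ x) :=
        integral_sub (j1.sub j2) (j3.sub j4)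
      rw [e1, integral_sub j1 j2, integral_sub j3 j4, TF_E1_symm σ ρ nσ nρ]
      ring
    rw [hsplit] at hpd
    have hab2 : 0 ≤ a * b * ((∫ x, ρ x * pot ρ x) - 2 * (∫ x, ρ x * pot σ x) +
        ∫ x, σ x * pot σ x) := mul_nonneg (mul_nonneg ha hb) hpd
    have hb' : b = 1 - a := by linarith
    unfold EF
    rw [k2, k3]
    subst hb'
    nlinarith

/-- the energy is nonpositive -/
lemma el_nonpos {z : Fin k → ℝ} (hz : ∀ j, 0 ≤ z j) (S : Fin k → E3) {lam : ℝ}
    (hl : 0 ≤ lam) : el z S lam ≤ 0 := by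
  have key : ∀ a : ℝ, 1 ≤ a → el z S lam ≤
      3 / 5 * (lam * (lam ^ (2/3 : ℝ) * a⁻¹)) + 1 / 2 * (lam * (lam * a⁻¹)) := by
    intro a ha1
    have ha : 0 < a := by linarith
    have hpi := Real.pi_gt_three
    set V := (volume : Measure E3).real (shell a (2 * a)) with hV
    have hVe : V = 28 / 3 * Real.pi * a ^ 3 := by
      rw [hV, vol_shell ha.le (by linarith)]
      ring
    have hV1 : a ^ 3 ≤ V := by
      rw [hVe]
      have : (0 : ℝ) < a ^ 3 := by positivity
      nlinarith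
    have hV0 : 0 < V := lt_of_lt_of_le (by positivity) hV1
    set c := lam / V with hc
    have hc0 : 0 ≤ c := by positivity
    have hcV : c * V = lam := div_mul_cancel₀ _ hV0.ne'
    set s : E3 → ℝ := (shell a (2 * a)).indicator (fun _ => c) with hs
    have hs0 : ∀ x, 0 ≤ s x := fun x => indicator_nonneg (fun _ _ => hc0) x
    have hind : ∀ d : ℝ, Integrable ((shell a (2 * a)).indicator fun _ : E3 => d) := fun d =>
      (integrable_indicator_iff (shell_meas a (2 * a))).2 (integrableOn_const (shell_fin a (2 * a)))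
    have hindv : ∀ d : ℝ, ∫ x, (shell a (2 * a)).indicator (fun _ : E3 => d) x = d * V :=
      fun d => by
        rw [integral_indicator (shell_meas a (2 * a)), setIntegral_const, smul_eq_mul, mul_comm]
    have hsp : (fun x => s x ^ (5/3 : ℝ)) =
        (shell a (2 * a)).indicator (fun _ => c ^ (5/3 : ℝ)) := by
      funext x
      by_cases hx : x ∈ shell a (2 * a)
      · rw [hs, indicator_of_mem hx, indicator_of_mem hx]
      · rw [hs, indicator_of_notMem hx, indicator_of_notMem hx]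
        exact Real.zero_rpow (by norm_num)
    have hsA : Adm s := ⟨measurable_const.indicator (shell_meas a (2 * a)), hs0, hind c, by
      rw [hsp]; exact hind _⟩
    have ns := nice_of_adm hsA
    have h1 := el_le hz S hsA ((hindv c).trans hcV)
    have h2 : 0 ≤ ∫ x, VV z S x * s x :=
      integral_nonneg fun x => mul_nonneg (VV_nonneg hz S x) (hs0 x)
    have h3 : ∫ x, s x * pot s x ≤ lam * (lam * a⁻¹) := by
      have h4 : ∫ x, s x * pot s x ≤ ∫ x, s x * (c * V / a) :=
        integral_mono (TF_E1_int s s ns.2.1 ns) (ns.2.1.mul_const _) fun x =>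
          mul_le_mul_of_nonneg_left (pot_shell_le ha hc0 x) (hs0 x)
      rw [integral_mul_const, hindv, hcV] at h4
      rw [← div_eq_mul_inv]
      exact h4
    have h5 : ∫ x, s x ^ (5/3 : ℝ) ≤ lam * (lam ^ (2/3 : ℝ) * a⁻¹) := by
      rw [hsp, hindv]
      have e1 : c ^ (5/3 : ℝ) = c * c ^ (2/3 : ℝ) := by
        rcases hc0.lt_or_eq with hcp | hcp
        · rw [show (5/3 : ℝ) = 1 + 2/3 by norm_num, Real.rpow_add hcp, Real.rpow_one]
        · rw [← hcp, Real.zero_rpow (by norm_num), zero_mul]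
      have e2 : c ^ (5/3 : ℝ) * V = lam * c ^ (2/3 : ℝ) := by
        rw [e1, ← hcV]
        ring
      rw [e2]
      refine mul_le_mul_of_nonneg_left ?_ hl
      have e3 : c ≤ lam / a ^ 3 := by
        rw [hc]
        gcongr
      calc c ^ (2/3 : ℝ) ≤ (lam / a ^ 3) ^ (2/3 : ℝ) := Real.rpow_le_rpow hc0 e3 (by norm_num)
        _ = lam ^ (2/3 : ℝ) * (a ^ 2)⁻¹ := by
            rw [Real.div_rpow hl (by positivity), ← Real.rpow_natCast a 3,
              ← Real.rpow_mul ha.le, div_eq_mul_inv]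
            norm_num
        _ ≤ lam ^ (2/3 : ℝ) * a⁻¹ := by
            refine mul_le_mul_of_nonneg_left ?_ (by positivity)
            exact inv_anti₀ ha (by nlinarith)
    unfold EF at h1
    linarith
  have hlim : Tendsto (fun a : ℝ => 3 / 5 * (lam * (lam ^ (2/3 : ℝ) * a⁻¹)) +
      1 / 2 * (lam * (lam * a⁻¹))) atTop
      (𝓝 (3 / 5 * (lam * (lam ^ (2/3 : ℝ) * 0)) + 1 / 2 * (lam * (lam * 0)))) := by
    have h0 := tendsto_inv_atTop_zero (𝕜 := ℝ)
    exact (((h0.const_mul _).const_mul _).const_mul _).add (((h0.const_mul _).const_mul _).const_mul _)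
  have h1 := ge_of_tendsto hlim (by
    filter_upwards [eventually_ge_atTop (1 : ℝ)] with a ha
    exact key a ha)
  simpa using h1

/-- convexity of the energy in the electron number -/
lemma el_convex {z : Fin k → ℝ} (hz : ∀ j, 0 ≤ z j) (S : Fin k → E3) :
    ConvexOn ℝ (Ici 0) (el z S) := by
  refine ⟨convex_Ici 0, ?_⟩
  intro x hx y hy a b ha hb hab
  simp only [smul_eq_mul]
  have hx0 : 0 ≤ x := hx
  have hy0 : 0 ≤ y := hy
  rcases ha.eq_or_lt with h0 | ha0
  · subst h0
    have : b = 1 := by linarith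
    subst this
    simp
  rcases hb.eq_or_lt with h0 | hb0
  · subst h0
    have : a = 1 := by linarith
    subst this
    simp
  have h1 : ∀ ρ σ, Adm ρ → ∫ v, ρ v = x → Adm σ → ∫ v, σ v = y →
      el z S (a * x + b * y) ≤ a * EF z S ρ + b * EF z S σ := by
    intro ρ σ hρ h2 hσ h3
    obtain ⟨p1, p2, p3⟩ := EF_convex (z := z) (S := S) hρ hσ ha hb hab
    rw [h2, h3] at p2
    exact (el_le hz S p1 p2).trans p3
  have h2 : ∀ σ, Adm σ → ∫ v, σ v = y →
      (el z S (a * x + b * y) - b * EF z S σ) / a ≤ el z S x := by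
    intro σ hσ h3
    refine le_el hx0 fun ρ hρ h4 => ?_
    rw [div_le_iff₀ ha0]
    linarith [h1 ρ σ hρ h4 hσ h3]
  have h3 : (el z S (a * x + b * y) - a * el z S x) / b ≤ el z S y := by
    refine le_el hy0 fun σ hσ h4 => ?_
    rw [div_le_iff₀ hb0]
    have := h2 σ hσ h4
    rw [div_le_iff₀ ha0] at this
    linarith
  rw [div_le_iff₀ hb0] at h3
  linarith

/-- a convex bounded function has supporting lines of negative slope -/
lemma support_line {f : ℝ → ℝ} (hf : ConvexOn ℝ (Ici 0) f) (h0 : ∀ x, 0 ≤ x → f x ≤ 0) {x : ℝ}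
    (hx : 0 < x) {ε : ℝ} (hε : 0 < ε) :
    ∃ μ : ℝ, 0 < μ ∧ ∀ y, 0 ≤ y → f x + μ * x - ε ≤ f y + μ * y := by
  set T : Set ℝ := {t | ∃ y, 0 ≤ y ∧ y < x ∧ t = (f x - f y) / (x - y)} with hT
  have hTne : T.Nonempty := ⟨_, 0, le_rfl, hx, rfl⟩
  have hub : ∀ y, x < y → ∀ t ∈ T, t ≤ (f y - f x) / (y - x) := by
    rintro y hy t ⟨w, hw, hwx, rfl⟩
    exact hf.slope_mono_adjacent (mem_Ici.2 hw) (mem_Ici.2 (hx.le.trans hy.le)) hwx hy
  have hbdd : BddAbove T := ⟨_, fun t ht => hub (x + 1) (by linarith) t ht⟩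
  set m := sSup T with hm
  have hleft : ∀ y, 0 ≤ y → y < x → f x + m * (y - x) ≤ f y := by
    intro y hy hyx
    have h1 : (f x - f y) / (x - y) ≤ m := le_csSup hbdd ⟨y, hy, hyx, rfl⟩
    rw [div_le_iff₀ (by linarith)] at h1
    linarith
  have hright : ∀ y, x < y → f x + m * (y - x) ≤ f y := by
    intro y hy
    have h1 : m ≤ (f y - f x) / (y - x) := csSup_le hTne (hub y hy)
    rw [le_div_iff₀ (by linarith)] at h1
    linarith
  have hall : ∀ y, 0 ≤ y → f x + m * (y - x) ≤ f y := by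
    intro y hy
    rcases lt_trichotomy y x with h | h | h
    · exact hleft y hy h
    · rw [h]
      simp
    · exact hright y h
  have hm0 : m ≤ 0 := by
    by_contra hcon
    push Not at hcon
    have h1 := hall (x + (1 - f x) / m) (by
      have h2 := h0 x hx.le
      have : 0 ≤ (1 - f x) / m := div_nonneg (by linarith) hcon.le
      linarith)
    have h2 := h0 (x + (1 - f x) / m) (by
      have h2 := h0 x hx.le
      have : 0 ≤ (1 - f x) / m := div_nonneg (by linarith) hcon.le
      linarith)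
    have h3 : m * (x + (1 - f x) / m - x) = 1 - f x := by
      field_simp
      ring
    rw [h3] at h1
    linarith
  refine ⟨-m + ε / x, by have := div_pos hε hx; linarith, fun y hy => ?_⟩
  have h1 := hall y hy
  have h2 : ε / x * x = ε := div_mul_cancel₀ _ hx.ne'
  have h3 : 0 ≤ ε / x * y := by positivity
  nlinarith

/-- **the electronic energy increases under dilation** -/
theorem el_mono {z : Fin k → ℝ} (hz : ∀ j, 0 ≤ z j) (R : Fin k → E3) {lam : ℝ} (hl : 0 ≤ lam)
    {l₁ l₂ : ℝ} (h₁ : 0 < l₁) (h₂ : l₁ ≤ l₂) :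
    el z (fun j => l₁ • R j) lam ≤ el z (fun j => l₂ • R j) lam := by
  rcases hl.eq_or_lt with h0 | hl0
  · -- no electrons
    subst h0
    refine (el_nonpos hz _ le_rfl).trans (le_el le_rfl fun σ hσ hm => ?_)
    have hae : σ =ᵐ[volume] 0 := (integral_eq_zero_iff_of_nonneg hσ.2.1 hσ.2.2.1).1 hm
    have h2 : ∫ x, VV z (fun j => l₂ • R j) x * σ x = 0 := by
      rw [← integral_zero E3 ℝ]
      refine integral_congr_ae ?_
      filter_upwards [hae] with x hx
      rw [hx]
      simp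
    have h3 : 0 ≤ ∫ x, σ x ^ (5/3 : ℝ) := integral_nonneg fun x => Real.rpow_nonneg (hσ.2.1 x) _
    have h4 : 0 ≤ ∫ x, σ x * pot σ x :=
      integral_nonneg fun x => mul_nonneg (hσ.2.1 x) (pot_nonneg hσ.2.1 x)
    unfold EF
    rw [h2]
    linarith
  · refine le_of_forall_pos_le_add fun ε hε => ?_
    obtain ⟨μ, hμ, hdual⟩ := support_line (el_convex hz (fun j => l₁ • R j))
      (fun x hx => el_nonpos hz _ hx) hl0 hε
    have h1 : el z (fun j => l₁ • R j) lam + μ * lam - ε ≤ Om z R μ l₁ := by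
      have h := sol_EL hz (fun j => l₁ • R j) hμ
      have hA : Adm (sol z (fun j => l₁ • R j) μ) := adm_of_nice h.nice h.nonneg
      have h2 := hdual _ (integral_nonneg (μ := volume) h.nonneg)
      have h3 := el_le hz (fun j => l₁ • R j) hA rfl
      unfold Om
      linarith
    have h2 := Om_mono hz R hμ h₁ h₂
    have h3 : el z (fun j => l₁ • R j) lam - ε ≤ el z (fun j => l₂ • R j) lam := by
      refine le_el hl fun σ hσ hm => ?_
      have h4 := Om_le hz R hμ l₂ hσ
      rw [hm] at h4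
      linarith
    linarith

end Pool.Agent.Q204.TFM
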