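import Pool.Agent.Helper557.TF.Core

/-!
# Newton's theorem for radial densities
-/

set_option autoImplicit false
open MeasureTheory Set Filter Topology Metric
open scoped RealInnerProductSpace BigOperators ENNReal
open Pool.Agent.Helper557.TFP

namespace Pool.Agent.Q204.TFM

lemma vol1 : (volume : Measure E3).real (ball 0 1) = 4 / 3 * Real.pi := by
  rw [Measure.real, EuclideanSpace.volume_ball_fin_three, ENNReal.toReal_mul,
    ENNReal.toReal_pow, ENNReal.toReal_ofReal (by norm_num),
    ENNReal.toReal_ofReal (by positivity)]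
  ring

/-- polar coordinates for radial functions -/
lemma polar (f : ℝ → ℝ) : ∫ y : E3, f ‖y‖ = 4 * Real.pi * ∫ r in Ioi (0 : ℝ), r ^ 2 * f r := by
  rw [integral_fun_norm_addHaar (volume : Measure E3) f]
  simp only [finrank_euclideanSpace, Fintype.card_fin, vol1, smul_eq_mul, nsmul_eq_mul]
  norm_num
  ring

lemma polar_integrable (f : ℝ → ℝ) :
    Integrable (fun y : E3 => f ‖y‖) ↔ IntegrableOn (fun r : ℝ => r ^ 2 * f r) (Ioi 0) := by
  rw [integrable_fun_norm_addHaar (volume : Measure E3) (f := f)]
  simp only [finrank_euclideanSpace, Fintype.card_fin, smul_eq_mul]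

/-- the integral of the Coulomb kernel over a ball around the origin -/
lemma ball_kernel (x : E3) (hx : x ≠ 0) (s : ℝ) (hs : 0 < s) :
    IntegrableOn (fun y : E3 => 1 / ‖x - y‖) (ball 0 s) ∧
    ∫ y in ball (0 : E3) s, 1 / ‖x - y‖ =
      if s ≤ ‖x‖ then (4 / 3 * Real.pi * s ^ 3) / ‖x‖ else 2 * Real.pi * (s ^ 2 - ‖x‖ ^ 2 / 3) := by
  set a := ‖x‖ with ha
  have ha0 : 0 < a := norm_pos_iff.2 hx
  have hn : ‖x‖ = ‖(EuclideanSpace.single 0 a : E3)‖ := by
    rw [PiLp.norm_single, Real.norm_of_nonneg ha0.le]
  set L : E3 ≃ₗᵢ[ℝ] E3 :=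
    Submodule.reflection (Submodule.span ℝ {x - (EuclideanSpace.single 0 a : E3)})ᗮ with hL
  have hLx : L x = EuclideanSpace.single 0 a := Submodule.reflection_sub hn
  have hpre : L ⁻¹' (ball (0 : E3) s) = ball 0 s := by
    ext y
    rw [mem_preimage, mem_ball_zero_iff, LinearIsometryEquiv.norm_map, mem_ball_zero_iff]
  have hf : ∀ y : E3, 1 / ‖x - y‖ = 1 / ‖L y - EuclideanSpace.single 0 a‖ := by
    intro y
    rw [← hLx, ← map_sub, LinearIsometryEquiv.norm_map, norm_sub_rev]
  have hemb : MeasurableEmbedding L := L.toHomeomorph.measurableEmbedding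
  obtain ⟨c1, c2, -⟩ := centered a s hs ha0.le
  have hi : IntegrableOn (fun y : E3 => 1 / ‖x - y‖) (ball 0 s) := by
    have h1 := (L.measurePreserving.integrableOn_comp_preimage hemb).2 c1
    rw [hpre] at h1
    refine h1.congr_fun (fun y _ => ?_) measurableSet_ball
    exact (hf y).symm
  refine ⟨hi, ?_⟩
  have h1 : ∫ y in ball (0 : E3) s, 1 / ‖x - y‖ =
      ∫ y in ball (0 : E3) s, 1 / ‖y - EuclideanSpace.single 0 a‖ := by
    have h2 := L.measurePreserving.setIntegral_preimage_emb hemb
      (fun y => 1 / ‖y - (EuclideanSpace.single 0 a : E3)‖) (ball 0 s)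
    rw [hpre] at h2
    rw [← h2]
    refine setIntegral_congr_fun measurableSet_ball fun y _ => ?_
    exact hf y
  rw [h1]
  by_cases hsa : s ≤ a
  · rw [if_pos hsa]
    exact c2 hsa
  · rw [if_neg hsa]
    push Not at hsa
    obtain ⟨-, hv⟩ := FF_int a s hs
    have hval : ∫ x in ball (0:E3) s, 1 / ‖x - EuclideanSpace.single 0 a‖ =
        2 * Real.pi * ((∫ z in (-s)..s, √(s^2+a^2-2*a*z)) - ∫ z in (-s)..s, |z-a|) := by
      rw [← integral_indicator measurableSet_ball]
      simp only [FF_eq a s hs]
      rw [← tot a s hs, ← hv]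
      exact eqv_mp.integral_comp eqv.measurableEmbedding (FF a s)
    rw [hval, A_val a s hs ha0, B_val2 a s hs ha0.le hsa.le, abs_of_nonneg (by linarith)]
    field_simp
    ring

/-- the integral of the radial kernel over a ball around the origin -/
lemma ball_radial (a : ℝ) (ha : 0 < a) (s : ℝ) (hs : 0 < s) :
    IntegrableOn (fun y : E3 => 1 / max a ‖y‖) (ball 0 s) ∧
    ∫ y in ball (0 : E3) s, 1 / max a ‖y‖ =
      if s ≤ a then (4 / 3 * Real.pi * s ^ 3) / a else 2 * Real.pi * (s ^ 2 - a ^ 2 / 3) := by
  have hc : ContinuousOn (fun r : ℝ => r ^ 2 * (1 / max a r)) univ := by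
    apply Continuous.continuousOn
    apply Continuous.mul (by fun_prop)
    apply Continuous.div continuous_const (by fun_prop)
    intro r
    exact (lt_of_lt_of_le ha (le_max_left _ _)).ne'
  have hind : (ball (0 : E3) s).indicator (fun y : E3 => 1 / max a ‖y‖) =
      fun y => (Iio s).indicator (fun r => 1 / max a r) ‖y‖ := by
    funext y
    by_cases hy : ‖y‖ < s
    · rw [indicator_of_mem (mem_ball_zero_iff.2 hy), indicator_of_mem (mem_Iio.2 hy)]
    · rw [indicator_of_notMem (fun h => hy (mem_ball_zero_iff.1 h)),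
        indicator_of_notMem (fun h => hy (mem_Iio.1 h))]
  have hind2 : ∀ r ∈ Ioi (0 : ℝ), r ^ 2 * (Iio s).indicator (fun r => 1 / max a r) r =
      (Ioo 0 s).indicator (fun r => r ^ 2 * (1 / max a r)) r := by
    intro r hr
    by_cases h : r < s
    · rw [indicator_of_mem (mem_Iio.2 h), indicator_of_mem (show r ∈ Ioo 0 s from ⟨hr, h⟩)]
    · rw [indicator_of_notMem (fun h' => h (mem_Iio.1 h')),
        indicator_of_notMem (fun h' => h h'.2), mul_zero]
  have hII : IntegrableOn (fun r : ℝ => r ^ 2 * (1 / max a r)) (Ioo 0 s) :=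
    ((hc.mono (subset_univ _)).integrableOn_compact isCompact_Icc).mono_set Ioo_subset_Icc_self
  constructor
  · rw [← integrable_indicator_iff measurableSet_ball, hind, polar_integrable]
    rw [integrableOn_congr_fun hind2 measurableSet_Ioi]
    exact ((integrable_indicator_iff measurableSet_Ioo).2 hII).integrableOn
  · rw [← integral_indicator measurableSet_ball, hind, polar,
      setIntegral_congr_fun measurableSet_Ioi hind2,
      setIntegral_indicator measurableSet_Ioo]
    have h1 : Ioi (0 : ℝ) ∩ Ioo 0 s = Ioo 0 s := inter_eq_right.2 fun r hr => hr.1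
    rw [h1, ← integral_Ioc_eq_integral_Ioo, ← intervalIntegral.integral_of_le hs.le]
    by_cases hsa : s ≤ a
    · rw [if_pos hsa]
      have h2 : ∫ r in (0 : ℝ)..s, r ^ 2 * (1 / max a r) = ∫ r in (0 : ℝ)..s, r ^ 2 * (1 / a) := by
        apply intervalIntegral.integral_congr
        intro r hr
        rw [uIcc_of_le hs.le] at hr
        simp only
        rw [max_eq_left (hr.2.trans hsa)]
      rw [h2, intervalIntegral.integral_mul_const, integral_pow]
      field_simp
      norm_num
      ring
    · rw [if_neg hsa]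
      push Not at hsa
      have hi1 : IntervalIntegrable (fun r : ℝ => r ^ 2 * (1 / max a r)) volume 0 a :=
        (hc.mono (subset_univ _)).intervalIntegrable
      have hi2 : IntervalIntegrable (fun r : ℝ => r ^ 2 * (1 / max a r)) volume a s :=
        (hc.mono (subset_univ _)).intervalIntegrable
      rw [← intervalIntegral.integral_add_adjacent_intervals hi1 hi2]
      have h2 : ∫ r in (0 : ℝ)..a, r ^ 2 * (1 / max a r) = ∫ r in (0 : ℝ)..a, r ^ 2 * (1 / a) := by
        apply intervalIntegral.integral_congr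
        intro r hr
        rw [uIcc_of_le ha.le] at hr
        simp only
        rw [max_eq_left hr.2]
      have h3 : ∫ r in a..s, r ^ 2 * (1 / max a r) = ∫ r in a..s, r := by
        apply intervalIntegral.integral_congr
        intro r hr
        rw [uIcc_of_le hsa.le] at hr
        simp only
        rw [max_eq_right hr.1]
        have : 0 < r := lt_of_lt_of_le ha hr.1
        field_simp
      rw [h2, h3, intervalIntegral.integral_mul_const, integral_pow, integral_id]
      field_simp
      ring

/-- the two kernels give the same mass to all spherical shells -/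
lemma kernel_map (x : E3) (hx : x ≠ 0) :
    Measure.map (fun y : E3 => ‖y‖)
        ((volume : Measure E3).withDensity fun y => ENNReal.ofReal (1 / ‖x - y‖)) =
      Measure.map (fun y : E3 => ‖y‖)
        ((volume : Measure E3).withDensity fun y => ENNReal.ofReal (1 / max ‖x‖ ‖y‖)) := by
  have ha0 : 0 < ‖x‖ := norm_pos_iff.2 hx
  set ν₁ := (volume : Measure E3).withDensity fun y => ENNReal.ofReal (1 / ‖x - y‖) with hν₁
  set ν₂ := (volume : Measure E3).withDensity fun y => ENNReal.ofReal (1 / max ‖x‖ ‖y‖) with hν₂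
  have hb : ∀ s : ℝ, ν₁ (ball 0 s) = ν₂ (ball 0 s) ∧ ν₁ (ball 0 s) ≠ ∞ := by
    intro s
    rcases le_or_gt s 0 with hs | hs
    · rw [ball_eq_empty.2 hs]
      simp
    · obtain ⟨i1, v1⟩ := ball_kernel x hx s hs
      obtain ⟨i2, v2⟩ := ball_radial ‖x‖ ha0 s hs
      rw [hν₁, hν₂, withDensity_apply _ measurableSet_ball, withDensity_apply _ measurableSet_ball,
        ← ofReal_integral_eq_lintegral_ofReal i1 (Eventually.of_forall fun y => by positivity),
        ← ofReal_integral_eq_lintegral_ofReal i2 (Eventually.of_forall fun y => by positivity),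
        v1, v2]
      exact ⟨rfl, ENNReal.ofReal_ne_top⟩
  have hIco : ∀ a b : ℝ, a < b → (fun y : E3 => ‖y‖) ⁻¹' (Ico a b) = ball 0 b \ ball 0 a := by
    intro a b _
    ext y
    simp only [mem_preimage, mem_Ico, Set.mem_sdiff, mem_ball_zero_iff, not_lt]
    tauto
  apply Measure.ext_of_Ico'
  · intro a b hab
    rw [Measure.map_apply measurable_norm measurableSet_Ico, hIco a b hab]
    exact ne_top_of_le_ne_top (hb b).2 (measure_mono Set.sdiff_subset)
  · intro a b hab
    rw [Measure.map_apply measurable_norm measurableSet_Ico,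
      Measure.map_apply measurable_norm measurableSet_Ico, hIco a b hab,
      measure_sdiff (ball_subset_ball hab.le) measurableSet_ball.nullMeasurableSet (hb a).2,
      measure_sdiff (ball_subset_ball hab.le) measurableSet_ball.nullMeasurableSet
        ((hb a).1 ▸ (hb a).2), (hb b).1, (hb a).1]

/-- **Newton's theorem** for a radial function -/
theorem newton_radial {G : ℝ → ℝ} (hG : Measurable G) (x : E3) :
    pot (fun y : E3 => G ‖y‖) x = ∫ y : E3, G ‖y‖ / max ‖x‖ ‖y‖ := by
  by_cases hx : x = 0
  · unfold pot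
    subst hx
    refine integral_congr_ae (Eventually.of_forall fun y => ?_)
    simp
  · have h : ∫ r, G r ∂(Measure.map (fun y : E3 => ‖y‖)
        ((volume : Measure E3).withDensity fun y => ENNReal.ofReal (1 / ‖x - y‖))) =
        ∫ r, G r ∂(Measure.map (fun y : E3 => ‖y‖)
        ((volume : Measure E3).withDensity fun y => ENNReal.ofReal (1 / max ‖x‖ ‖y‖))) := by
      rw [kernel_map x hx]
    rw [integral_map measurable_norm.aemeasurable hG.aestronglyMeasurable,
      integral_map measurable_norm.aemeasurable hG.aestronglyMeasurable] at h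
    rw [integral_withDensity_eq_integral_toReal_smul (by fun_prop)
        (Eventually.of_forall fun _ => ENNReal.ofReal_lt_top),
      integral_withDensity_eq_integral_toReal_smul (by fun_prop)
        (Eventually.of_forall fun _ => ENNReal.ofReal_lt_top)] at h
    unfold pot
    have e1 : ∀ y : E3, (ENNReal.ofReal (1 / ‖x - y‖)).toReal • G ‖y‖ = G ‖y‖ / ‖x - y‖ := by
      intro y
      rw [ENNReal.toReal_ofReal (by positivity), smul_eq_mul]
      ring
    have e2 : ∀ y : E3, (ENNReal.ofReal (1 / max ‖x‖ ‖y‖)).toReal • G ‖y‖ =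
        G ‖y‖ / max ‖x‖ ‖y‖ := by
      intro y
      rw [ENNReal.toReal_ofReal (by positivity), smul_eq_mul]
      ring
    simp only [e1, e2] at h
    exact h

end Pool.Agent.Q204.TFM
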