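import Pool.Agent.H9R2.TF.Emin
import Pool.Agent.Q204.TFM.Newton

/-!
# Thomas-Fermi atoms: existence, minimality, symmetry
-/

set_option autoImplicit false
open MeasureTheory Set Filter Topology Metric
open scoped RealInnerProductSpace BigOperators ENNReal
open Pool.Agent.Helper557 Pool.Agent.Helper557.TFP Pool.Agent.H9R2.TF

namespace Pool.Agent.Q204.TFM

/-! ### minimality of the solutions of the Thomas-Fermi equation -/

lemma young (a : ℝ) {s : ℝ} (hs : 0 ≤ s) : a * s ≤ 3 / 5 * s ^ (5/3 : ℝ) + Bf a := by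
  have hpq : (5/3 : ℝ).HolderConjugate (5/2 : ℝ) := by
    rw [Real.holderConjugate_iff]
    norm_num
  have h := Real.young_inequality_of_nonneg hs (le_max_right a 0) hpq
  have h1 : a * s ≤ s * max a 0 := by
    rw [mul_comm]
    exact mul_le_mul_of_nonneg_left (le_max_left _ _) hs
  unfold Bf
  refine h1.trans (h.trans (le_of_eq ?_))
  ring

lemma young_eq (a : ℝ) : a * be a = 3 / 5 * be a ^ (5/3 : ℝ) + Bf a := by
  rw [be_pow53]
  have h : a * be a = 5 / 2 * Bf a := by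
    rcases le_or_gt a 0 with h | h
    · rw [be_zero_of h, Bf_zero_of h]
      ring
    · unfold be Bf
      rw [max_eq_left h.le]
      have : a ^ (5/2 : ℝ) = a * a ^ (3/2 : ℝ) := by
        rw [show (5/2 : ℝ) = 1 + 3/2 by norm_num, Real.rpow_add h, Real.rpow_one]
      rw [this]
      ring
  rw [h]
  ring

/-- solutions of the Thomas-Fermi equation minimise the energy -/
theorem el_min {k : ℕ} {z : Fin k → ℝ} {R : Fin k → E3} {Φ : ℝ} {ρ σ : E3 → ℝ}
    (h : ELs z R Φ ρ) (hσ : Adm σ) (hm : ∫ x, σ x = ∫ x, ρ x) : EF z R ρ ≤ EF z R σ := by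
  have nσ := nice_of_adm hσ
  have nρ := h.nice
  have hρA : Adm ρ := adm_of_nice nρ h.nonneg
  have nδ := nice_sub' nσ nρ
  set F : E3 → ℝ := fun x => 3 / 5 * σ x ^ (5/3 : ℝ) - 3 / 5 * ρ x ^ (5/3 : ℝ) -
    (VV z R x * σ x - VV z R x * ρ x) + (σ x * pot ρ x - ρ x * pot ρ x) +
    Φ * (σ x - ρ x) with hF
  have hF0 : ∀ x, 0 ≤ F x := by
    intro x
    have h1 := young (VV z R x - pot ρ x - Φ) (hσ.2.1 x)
    have h2 := young_eq (VV z R x - pot ρ x - Φ)
    rw [← h.eq x] at h2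
    simp only [hF]
    linarith
  have i1 := hσ.2.2.2.const_mul (3 / 5 : ℝ)
  have i2 := hρA.2.2.2.const_mul (3 / 5 : ℝ)
  have i3 := vint z R nσ
  have i4 := vint z R nρ
  have i5 := TF_E1_int σ ρ nσ.2.1 nρ
  have i6 := TF_E1_int ρ ρ nρ.2.1 nρ
  have i7 := (nσ.2.1.sub nρ.2.1).const_mul Φ
  have hint : ∫ x, F x = 3 / 5 * (∫ x, σ x ^ (5/3 : ℝ)) - 3 / 5 * (∫ x, ρ x ^ (5/3 : ℝ)) -
      ((∫ x, VV z R x * σ x) - ∫ x, VV z R x * ρ x) +
      ((∫ x, σ x * pot ρ x) - ∫ x, ρ x * pot ρ x) := by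
    have e1 : ∫ x, F x = (∫ x, (3 / 5 * σ x ^ (5/3 : ℝ) - 3 / 5 * ρ x ^ (5/3 : ℝ) -
        (VV z R x * σ x - VV z R x * ρ x) + (σ x * pot ρ x - ρ x * pot ρ x))) +
        ∫ x, Φ * (σ x - ρ x) :=
      integral_add (((i1.sub i2).sub (i3.sub i4)).add (i5.sub i6)) i7
    have e2 : ∫ x, (3 / 5 * σ x ^ (5/3 : ℝ) - 3 / 5 * ρ x ^ (5/3 : ℝ) -
        (VV z R x * σ x - VV z R x * ρ x) + (σ x * pot ρ x - ρ x * pot ρ x)) =
        (∫ x, (3 / 5 * σ x ^ (5/3 : ℝ) - 3 / 5 * ρ x ^ (5/3 : ℝ) -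
        (VV z R x * σ x - VV z R x * ρ x))) + ∫ x, (σ x * pot ρ x - ρ x * pot ρ x) :=
      integral_add ((i1.sub i2).sub (i3.sub i4)) (i5.sub i6)
    have e3 : ∫ x, (3 / 5 * σ x ^ (5/3 : ℝ) - 3 / 5 * ρ x ^ (5/3 : ℝ) -
        (VV z R x * σ x - VV z R x * ρ x)) =
        (∫ x, (3 / 5 * σ x ^ (5/3 : ℝ) - 3 / 5 * ρ x ^ (5/3 : ℝ))) -
        ∫ x, (VV z R x * σ x - VV z R x * ρ x) :=
      integral_sub (i1.sub i2) (i3.sub i4)
    rw [e1, e2, e3, integral_sub i1 i2, integral_sub i3 i4, integral_sub i5 i6,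
      integral_const_mul, integral_const_mul, integral_const_mul, integral_sub nσ.2.1 nρ.2.1, hm]
    ring
  have hnn : 0 ≤ ∫ x, F x := integral_nonneg hF0
  have hpd := pot_pos nδ
  have hsplit : ∫ x, (σ x - ρ x) * pot (fun y => σ y - ρ y) x =
      (∫ x, σ x * pot σ x) - (∫ x, σ x * pot ρ x) - (∫ x, σ x * pot ρ x) +
        ∫ x, ρ x * pot ρ x := by
    have e0 : ∀ x, (σ x - ρ x) * pot (fun y => σ y - ρ y) x =
        (σ x * pot σ x - σ x * pot ρ x) - (ρ x * pot σ x - ρ x * pot ρ x) := by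
      intro x
      rw [pot_sub nσ nρ]
      ring
    simp only [e0]
    have j1 := TF_E1_int σ σ nσ.2.1 nσ
    have j2 := TF_E1_int ρ σ nρ.2.1 nσ
    have e1 : ∫ x, ((σ x * pot σ x - σ x * pot ρ x) - (ρ x * pot σ x - ρ x * pot ρ x)) =
        (∫ x, (σ x * pot σ x - σ x * pot ρ x)) - ∫ x, (ρ x * pot σ x - ρ x * pot ρ x) :=
      integral_sub (j1.sub i5) (j2.sub i6)
    rw [e1, integral_sub j1 i5, integral_sub j2 i6, TF_E1_symm ρ σ nρ nσ]
    ring
  rw [hsplit] at hpd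
  rw [hint] at hnn
  unfold EF
  linarith

/-! ### atoms -/

/-- solutions of the Thomas-Fermi equation of an atom at the origin -/
abbrev EA (Z Φ : ℝ) (ρ : E3 → ℝ) : Prop := ELs (fun _ : Fin 1 => Z) (fun _ => (0 : E3)) Φ ρ

lemma VV_atom (Z : ℝ) (x : E3) : VV (fun _ : Fin 1 => Z) (fun _ => (0 : E3)) x = Z / ‖x‖ := by
  simp [VV]

lemma rad_int {Z Φ : ℝ} (hZ : 0 < Z) (hΦ : 0 < Φ) (p : ℝ) (hp0 : 0 < p) (hp : p < 3) :
    IntegrableOn (fun r : ℝ => r ^ 2 * (max (Z / r - Φ) 0) ^ p) (Ioi 0) := by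
  have hA : 0 < Z / Φ := by positivity
  have hmeas : Measurable (fun r : ℝ => r ^ 2 * (max (Z / r - Φ) 0) ^ p) := by
    have : Measurable (fun r : ℝ => max (Z / r - Φ) 0) :=
      ((measurable_const.div measurable_id).sub_const Φ).max measurable_const
    exact (measurable_id.pow_const 2).mul (this.pow_const p)
  have hb : IntegrableOn (fun r : ℝ => Z ^ p * r ^ (2 - p)) (Ioc 0 (Z / Φ)) := by
    have := (intervalIntegral.intervalIntegrable_rpow' (a := 0) (b := Z / Φ)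
      (show -1 < 2 - p by linarith)).const_mul (Z ^ p)
    rwa [intervalIntegrable_iff_integrableOn_Ioc_of_le hA.le] at this
  have hb' : IntegrableOn ((Ioc 0 (Z / Φ)).indicator fun r : ℝ => Z ^ p * r ^ (2 - p)) (Ioi 0) :=
    ((integrable_indicator_iff measurableSet_Ioc).2 hb).integrableOn
  refine hb'.mono' hmeas.aestronglyMeasurable ?_
  refine (ae_restrict_iff' measurableSet_Ioi).2 (Eventually.of_forall fun r hr => ?_)
  have hr0 : 0 < r := hr
  by_cases hrA : r ≤ Z / Φ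
  · rw [indicator_of_mem (show r ∈ Ioc 0 (Z / Φ) from ⟨hr0, hrA⟩)]
    rw [Real.norm_of_nonneg (by positivity)]
    have h1 : max (Z / r - Φ) 0 ≤ Z / r := max_le (by linarith) (by positivity)
    have h2 : (max (Z / r - Φ) 0) ^ p ≤ (Z / r) ^ p :=
      Real.rpow_le_rpow (le_max_right _ _) h1 hp0.le
    calc r ^ 2 * (max (Z / r - Φ) 0) ^ p ≤ r ^ 2 * (Z / r) ^ p :=
          mul_le_mul_of_nonneg_left h2 (by positivity)
      _ = Z ^ p * r ^ (2 - p) := by
          rw [Real.div_rpow hZ.le hr0.le, Real.rpow_sub hr0, ← Real.rpow_natCast r 2]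
          push_cast
          field_simp
  · rw [indicator_of_notMem (fun h => hrA h.2)]
    push Not at hrA
    have h1 : Z / r - Φ ≤ 0 := by
      rw [sub_nonpos, div_le_iff₀ hr0]
      rw [div_lt_iff₀ hΦ] at hrA
      linarith
    rw [max_eq_right h1, Real.zero_rpow hp0.ne', mul_zero, norm_zero]

lemma barrier_nice {Z Φ : ℝ} (hZ : 0 < Z) (hΦ : 0 < Φ) :
    Nice (fun x : E3 => be (Z / ‖x‖ - Φ)) := by
  refine ⟨be_meas.comp ((measurable_const.div measurable_norm).sub_const Φ), ?_, ?_⟩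
  · exact (polar_integrable (fun r => be (Z / r - Φ))).2
      (rad_int hZ hΦ (3/2) (by norm_num) (by norm_num))
  · have h1 : (fun x : E3 => |be (Z / ‖x‖ - Φ)| ^ (5/3 : ℝ)) =
        fun x => (fun r => (max (Z / r - Φ) 0) ^ (5/2 : ℝ)) ‖x‖ := by
      funext x
      rw [abs_of_nonneg (be_nonneg _), be_pow53]
      unfold Bf
      ring
    rw [h1]
    exact (polar_integrable (fun r => (max (Z / r - Φ) 0) ^ (5/2 : ℝ))).2
      (rad_int hZ hΦ (5/2) (by norm_num) (by norm_num))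

/-- existence -/
theorem exists_EA {Z Φ : ℝ} (hZ : 0 < Z) (hΦ : 0 < Φ) : ∃ ρ, EA Z Φ ρ := by
  have hn := barrier_nice hZ hΦ
  have hh : Measurable (fun x : E3 => Z / ‖x‖ - Φ) :=
    (measurable_const.div measurable_norm).sub_const Φ
  have hi : Integrable (fun x : E3 => (Z / ‖x‖ - Φ) * be (Z / ‖x‖ - Φ)) := by
    have h1 := (vint (fun _ : Fin 1 => Z) (fun _ => (0 : E3)) hn).sub (hn.2.1.const_mul Φ)
    refine h1.congr (Eventually.of_forall fun x => ?_)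
    simp only [Pi.sub_apply, VV_atom]
    ring
  obtain ⟨τ, hτ, he⟩ := exists_EL (h := fun x : E3 => Z / ‖x‖ - Φ) (kop_full hn) hn
    (fun x => be_nonneg _) hh hi
  refine ⟨τ, hτ.nice hn, fun x => ?_⟩
  rw [he x, VV_atom, min_eq_right]
  · congr 1
    ring
  · refine be_mono ?_
    have := pot_nonneg (fun y => (hτ.2 y).1) x
    linarith

/-- uniqueness -/
theorem unique_EA {Z Φ : ℝ} {ρ₁ ρ₂ : E3 → ℝ} (h₁ : EA Z Φ ρ₁) (h₂ : EA Z Φ ρ₂) (x : E3) :
    ρ₁ x = ρ₂ x :=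
  le_antisymm ((EL_mono h₁ h₂ le_rfl).2 x) ((EL_mono h₂ h₁ le_rfl).2 x)

lemma pot_comp (A : E3 ≃ₗᵢ[ℝ] E3) (ρ : E3 → ℝ) (x : E3) :
    pot (fun y => ρ (A y)) x = pot ρ (A x) := by
  unfold pot
  have h := A.measurePreserving.integral_comp A.toHomeomorph.measurableEmbedding
    (fun y => ρ y / ‖A x - y‖)
  rw [← h]
  refine integral_congr_ae (Eventually.of_forall fun y => ?_)
  simp only
  rw [← map_sub, LinearIsometryEquiv.norm_map]

lemma nice_comp (A : E3 ≃ₗᵢ[ℝ] E3) {ρ : E3 → ℝ} (h : Nice ρ) : Nice (fun y => ρ (A y)) := by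
  have hmp := A.measurePreserving
  refine ⟨h.1.comp A.continuous.measurable, ?_, ?_⟩
  · exact (hmp.integrable_comp_emb A.toHomeomorph.measurableEmbedding).2 h.2.1
  · exact (hmp.integrable_comp_emb A.toHomeomorph.measurableEmbedding
      (g := fun x => |ρ x| ^ (5/3 : ℝ))).2 h.2.2

/-- symmetry -/
theorem radial_EA {Z Φ : ℝ} {ρ : E3 → ℝ} (h : EA Z Φ ρ) {x y : E3} (hxy : ‖x‖ = ‖y‖) :
    ρ x = ρ y := by
  set A : E3 ≃ₗᵢ[ℝ] E3 := Submodule.reflection (Submodule.span ℝ {x - y})ᗮ with hA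
  have hAx : A x = y := Submodule.reflection_sub hxy
  have h' : EA Z Φ (fun v => ρ (A v)) := by
    refine ⟨nice_comp A h.nice, fun v => ?_⟩
    rw [h.eq (A v), VV_atom, VV_atom, pot_comp, LinearIsometryEquiv.norm_map]
  have := unique_EA h h' x
  rw [this, hAx]

end Pool.Agent.Q204.TFM
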