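import Pool.Agent.Q204.TFM.Exist

/-!
# Thomas-Fermi atoms: the family of all densities, and the consequences of monotonicity
-/

set_option autoImplicit false
open MeasureTheory Set Filter Topology Metric
open scoped RealInnerProductSpace BigOperators ENNReal
open Pool.Agent.Helper557 Pool.Agent.Helper557.TFP Pool.Agent.H9R2.TF

namespace Pool.Agent.Q204.TFM

/-- the first basis vector -/
noncomputable def e1 : E3 := EuclideanSpace.single 0 1

lemma norm_e1 : ‖e1‖ = 1 := by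
  simp [e1]

lemma norm_smul_e1 {r : ℝ} (hr : 0 ≤ r) : ‖r • e1‖ = r := by
  rw [norm_smul, norm_e1, mul_one, Real.norm_of_nonneg hr]

/-- the radial profile -/
noncomputable def prof (ρ : E3 → ℝ) (r : ℝ) : ℝ := ρ (r • e1)

lemma prof_eq {Z Φ : ℝ} {ρ : E3 → ℝ} (h : EA Z Φ ρ) (x : E3) : ρ x = prof ρ ‖x‖ :=
  radial_EA h (norm_smul_e1 (norm_nonneg x)).symm

lemma prof_meas {Z Φ : ℝ} {ρ : E3 → ℝ} (h : EA Z Φ ρ) : Measurable (prof ρ) :=
  h.nice.1.comp (by fun_prop)

/-- the function `V - |x|⁻¹ * ρ - μ` -/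
noncomputable def uu (Z μ : ℝ) (ρ : E3 → ℝ) (x : E3) : ℝ := Z / ‖x‖ - pot ρ x - μ

lemma EA.eq' {Z μ : ℝ} {ρ : E3 → ℝ} (h : EA Z μ ρ) (x : E3) : ρ x = be (uu Z μ ρ x) := by
  rw [h.eq, VV_atom]
  rfl

/-- Newton's theorem for atomic densities -/
lemma pot_EA {Z μ : ℝ} {ρ : E3 → ℝ} (h : EA Z μ ρ) (x : E3) :
    pot ρ x = ∫ y, ρ y / max ‖x‖ ‖y‖ := by
  have h1 := newton_radial (prof_meas h) x
  have h2 : (fun y : E3 => prof ρ ‖y‖) = ρ := funext fun y => (prof_eq h y).symm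
  rw [h2] at h1
  rw [h1]
  refine integral_congr_ae (Eventually.of_forall fun y => ?_)
  simp only
  rw [← prof_eq h y]

lemma int_max {ρ : E3 → ℝ} (h : Nice ρ) {b : ℝ} (hb : 0 < b) :
    Integrable (fun y => ρ y / max b ‖y‖) := by
  refine (h.2.1.norm.mul_const b⁻¹).mono' ?_ (Eventually.of_forall fun y => ?_)
  · exact (h.1.div (measurable_const.max measurable_norm)).aestronglyMeasurable
  · rw [norm_div, div_eq_mul_inv]
    refine mul_le_mul_of_nonneg_left ?_ (norm_nonneg _)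
    have h1 : b ≤ max b ‖y‖ := le_max_left _ _
    rw [Real.norm_of_nonneg (hb.le.trans h1)]
    exact inv_anti₀ hb h1

/-- the potential in terms of the total charge and the exterior density -/
lemma uu_eq {Z μ : ℝ} {ρ : E3 → ℝ} (h : EA Z μ ρ) {x : E3} (hx : x ≠ 0) :
    uu Z μ ρ x = (Z - ∫ y, ρ y) / ‖x‖ - μ + ∫ y, ρ y * (1 / ‖x‖ - 1 / max ‖x‖ ‖y‖) := by
  have hx0 : 0 < ‖x‖ := norm_pos_iff.2 hx
  have h1 : ∫ y, ρ y * (1 / ‖x‖ - 1 / max ‖x‖ ‖y‖) =
      (∫ y, ρ y) / ‖x‖ - ∫ y, ρ y / max ‖x‖ ‖y‖ := by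
    rw [← integral_div, ← integral_sub (h.nice.2.1.div_const _) (int_max h.nice hx0)]
    refine integral_congr_ae (Eventually.of_forall fun y => ?_)
    simp only
    ring
  unfold uu
  rw [pot_EA h, h1]
  ring

lemma ext_nonneg {ρ : E3 → ℝ} (h : ∀ y, 0 ≤ ρ y) {b : ℝ} (hb : 0 < b) :
    0 ≤ ∫ y, ρ y * (1 / b - 1 / max b ‖y‖) := by
  refine integral_nonneg fun y => mul_nonneg (h y) ?_
  rw [sub_nonneg]
  exact one_div_le_one_div_of_le hb (le_max_left _ _)

lemma uu_ge {Z μ : ℝ} {ρ : E3 → ℝ} (h : EA Z μ ρ) {x : E3} (hx : x ≠ 0) :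
    (Z - ∫ y, ρ y) / ‖x‖ - μ ≤ uu Z μ ρ x := by
  rw [uu_eq h hx]
  have := ext_nonneg h.nonneg (norm_pos_iff.2 hx)
  linarith

lemma ae_ne_zero : ∀ᵐ x : E3, x ≠ 0 := by
  rw [ae_iff]
  simp

lemma uu_cont {Z μ : ℝ} {ρ : E3 → ℝ} (h : EA Z μ ρ) :
    ContinuousOn (fun r : ℝ => uu Z μ ρ (r • e1)) (Ioi 0) := by
  unfold uu
  apply ContinuousOn.sub
  · apply ContinuousOn.sub
    · apply ContinuousOn.div continuousOn_const
      · exact (Continuous.continuousOn (by fun_prop))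
      · intro r hr
        rw [norm_smul_e1 (le_of_lt hr)]
        exact ne_of_gt hr
    · exact ((pot_cont h.nice).comp (by fun_prop)).continuousOn
  · exact continuousOn_const

lemma uu_radial {Z μ : ℝ} {ρ : E3 → ℝ} (h : EA Z μ ρ) (x : E3) :
    uu Z μ ρ x = uu Z μ ρ (‖x‖ • e1) := by
  unfold uu
  rw [pot_EA h, pot_EA h, norm_smul_e1 (norm_nonneg x)]

lemma uu_le {Z μ : ℝ} {ρ : E3 → ℝ} (h : EA Z μ ρ) (x : E3) : uu Z μ ρ x ≤ Z / ‖x‖ - μ := by
  unfold uu
  have := pot_nonneg h.nonneg x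
  linarith

/-- an atom with positive chemical potential is positively charged -/
lemma charge_pos {Z μ : ℝ} {ρ : E3 → ℝ} (hZ : 0 < Z) (hμ : 0 < μ) (h : EA Z μ ρ) :
    ∫ y, ρ y < Z := by
  by_cases hne : ∃ b0 : ℝ, 0 < b0 ∧ 0 ≤ uu Z μ ρ (b0 • e1)
  · obtain ⟨b0, hb0, hu0⟩ := hne
    set S : Set ℝ := {b | b ∈ Icc b0 (Z / μ) ∧ uu Z μ ρ (b • e1) ∈ Ici (0 : ℝ)} with hS
    have hle : ∀ b, 0 < b → 0 ≤ uu Z μ ρ (b • e1) → b ≤ Z / μ := by
      intro b hb hu
      have h1 := uu_le h (b • e1)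
      rw [norm_smul_e1 hb.le] at h1
      rw [le_div_iff₀ hμ]
      have h2 : μ ≤ Z / b := by linarith
      rw [le_div_iff₀ hb] at h2
      linarith
    have hcpt : IsCompact S := by
      have hc : ContinuousOn (fun r : ℝ => uu Z μ ρ (r • e1)) (Icc b0 (Z / μ)) :=
        (uu_cont h).mono fun r hr => lt_of_lt_of_le hb0 hr.1
      have hcl : IsClosed S := hc.preimage_isClosed_of_isClosed isClosed_Icc isClosed_Ici
      exact isCompact_Icc.of_isClosed_subset hcl fun b hb => hb.1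
    have hSne : S.Nonempty := ⟨b0, ⟨le_rfl, hle b0 hb0 hu0⟩, hu0⟩
    obtain ⟨b1, hb1, hmax⟩ := hcpt.exists_isGreatest hSne
    have hb1p : 0 < b1 := lt_of_lt_of_le hb0 hb1.1.1
    have hout : ∀ y : E3, b1 < ‖y‖ → ρ y = 0 := by
      intro y hy
      rw [h.eq', uu_radial h]
      apply be_zero_of
      by_contra hcon
      push Not at hcon
      have h2 : ‖y‖ ∈ S := ⟨⟨hb1.1.1.trans hy.le, hle _ (hb1p.trans hy) hcon.le⟩, hcon.le⟩
      exact absurd (hmax h2) (not_le.2 hy)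
    have hx : b1 • e1 ≠ 0 := by
      intro h0
      have := norm_smul_e1 hb1p.le
      rw [h0, norm_zero] at this
      linarith
    have h3 := uu_eq h hx
    rw [norm_smul_e1 hb1p.le] at h3
    have h4 : ∫ y, ρ y * (1 / b1 - 1 / max b1 ‖y‖) = 0 := by
      refine integral_eq_zero_of_ae (Eventually.of_forall fun y => ?_)
      rcases le_or_gt ‖y‖ b1 with hy | hy
      · simp [max_eq_left hy]
      · simp [hout y hy]
    rw [h4, add_zero] at h3
    have h5 : (0 : ℝ) ≤ uu Z μ ρ (b1 • e1) := hb1.2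
    have h6 : μ ≤ (Z - ∫ y, ρ y) / b1 := by linarith
    rw [le_div_iff₀ hb1p] at h6
    have : 0 < μ * b1 := mul_pos hμ hb1p
    linarith
  · push Not at hne
    have h1 : ∫ y, ρ y = 0 := by
      refine integral_eq_zero_of_ae ?_
      filter_upwards [ae_ne_zero] with y hy
      rw [h.eq', uu_radial h]
      exact be_zero_of (hne _ (norm_pos_iff.2 hy)).le
    rw [h1]
    exact hZ

/-- near the nucleus the density is positive -/
lemma near_pos {Z μ : ℝ} {ρ : E3 → ℝ} (hZ : 0 < Z) (h : EA Z μ ρ) :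
    ∃ r > 0, ∀ x : E3, x ≠ 0 → ‖x‖ < r → 0 < uu Z μ ρ x := by
  obtain ⟨B, hB0, hB⟩ := pot_bdd h.nice
  refine ⟨Z / (B + |μ| + 1), by positivity, fun x hx hxr => ?_⟩
  have hx0 : 0 < ‖x‖ := norm_pos_iff.2 hx
  have h1 : B + |μ| + 1 < Z / ‖x‖ := by
    rw [lt_div_iff₀ hx0]
    rw [lt_div_iff₀ (by positivity)] at hxr
    linarith
  have h2 := (abs_le.1 (hB x)).2
  have h3 := le_abs_self μ
  unfold uu
  linarith

lemma be_strict {u v : ℝ} (h : u < v) (hv : 0 < v) : be u < be v := by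
  unfold be
  rw [max_eq_left hv.le]
  exact Real.rpow_lt_rpow (le_max_right _ _) (max_lt h hv) (by norm_num)

lemma be_pos {u : ℝ} (h : 0 < u) : 0 < be u := by
  unfold be
  rw [max_eq_left h.le]
  exact Real.rpow_pos_of_pos h _

lemma ae_false_of_near {r : ℝ} (hr : 0 < r) (h : ∀ᵐ x : E3, ¬ (x ≠ 0 ∧ ‖x‖ < r)) : False := by
  have h1 : ∀ᵐ x : E3, x ∉ ball (0 : E3) r := by
    filter_upwards [h, ae_ne_zero] with x hx hx0 hxb
    exact hx ⟨hx0, mem_ball_zero_iff.1 hxb⟩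
  rw [ae_iff] at h1
  simp only [not_not] at h1
  have h2 : (volume : Measure E3) (ball 0 r) = 0 := h1
  exact (measure_ball_pos volume (0 : E3) hr).ne' h2

lemma mass_pos {Z μ : ℝ} {ρ : E3 → ℝ} (hZ : 0 < Z) (h : EA Z μ ρ) : 0 < ∫ y, ρ y := by
  rcases (integral_nonneg (μ := volume) (f := ρ) fun x => h.nonneg x).lt_or_eq with h0 | h0
  · exact h0
  · exfalso
    obtain ⟨r, hr, hp⟩ := near_pos hZ h
    have h1 := (integral_eq_zero_iff_of_nonneg h.nonneg h.nice.2.1).1 h0.symm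
    apply ae_false_of_near hr
    filter_upwards [h1] with x hx
    rintro ⟨hx0, hxr⟩
    have h2 := be_pos (hp x hx0 hxr)
    rw [← h.eq' x, hx] at h2
    exact lt_irrefl _ h2

/-- the mass is strictly decreasing in the chemical potential -/
lemma mass_strict {Z μ μ' : ℝ} {ρ ρ' : E3 → ℝ} (hZ : 0 < Z) (h : EA Z μ ρ) (h' : EA Z μ' ρ')
    (hμ : μ < μ') : ∫ y, ρ' y < ∫ y, ρ y := by
  have hle := (EL_mono h' h hμ.le).2
  rcases (integral_mono h'.nice.2.1 h.nice.2.1 hle).lt_or_eq with h0 | h0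
  · exact h0
  · exfalso
    have hg : ∫ y, (ρ y - ρ' y) = 0 := by
      rw [integral_sub h.nice.2.1 h'.nice.2.1]
      linarith
    have h1 := (integral_eq_zero_iff_of_nonneg (fun y => sub_nonneg.2 (hle y))
      (h.nice.2.1.sub h'.nice.2.1)).1 hg
    have h2 : ρ =ᵐ[volume] ρ' := by
      filter_upwards [h1] with x hx
      have : ρ x - ρ' x = 0 := hx
      linarith
    obtain ⟨r, hr, hp⟩ := near_pos hZ h'
    apply ae_false_of_near hr
    filter_upwards [h2] with x hx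
    rintro ⟨hx0, hxr⟩
    have h3 := hp x hx0 hxr
    have h4 : uu Z μ' ρ' x < uu Z μ ρ x := by
      unfold uu
      rw [pot_congr h2 x]
      linarith
    have h5 := be_strict h4 (h3.trans h4)
    rw [← h'.eq' x, ← h.eq' x, hx] at h5
    exact lt_irrefl _ h5

/-- comparison of the potentials of two atoms -/
lemma uu_lip {Z μ μ' : ℝ} {ρ ρ' : E3 → ℝ} (h : EA Z μ ρ) (h' : EA Z μ' ρ')
    (hμ : μ ≤ μ') (x : E3) :
    uu Z μ' ρ' x ≤ uu Z μ ρ x ∧ uu Z μ ρ x ≤ uu Z μ' ρ' x + (μ' - μ) := by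
  obtain ⟨h1, h2⟩ := EL_mono h' h hμ
  have h3 := h1 x
  have h4 := pot_mono h'.nice h.nice h2 x
  unfold uu
  constructor <;> linarith

/-- the integral of the kernel `1/|v| - 1/b` over a ball -/
lemma ball_diff {b : ℝ} (hb : 0 < b) :
    Integrable ((ball (0 : E3) b).indicator fun v => 1 / ‖v‖ - 1 / b) ∧
    ∫ v, (ball (0 : E3) b).indicator (fun v => 1 / ‖v‖ - 1 / b) v =
      2 * Real.pi / 3 * b ^ 2 := by
  have hind : (ball (0 : E3) b).indicator (fun v : E3 => 1 / ‖v‖ - 1 / b) =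
      fun y => (Iio b).indicator (fun r => 1 / r - 1 / b) ‖y‖ := by
    funext y
    by_cases hy : ‖y‖ < b
    · rw [indicator_of_mem (mem_ball_zero_iff.2 hy), indicator_of_mem (mem_Iio.2 hy)]
    · rw [indicator_of_notMem (fun h => hy (mem_ball_zero_iff.1 h)),
        indicator_of_notMem (fun h => hy (mem_Iio.1 h))]
  have hind2 : ∀ r ∈ Ioi (0 : ℝ), r ^ 2 * (Iio b).indicator (fun r => 1 / r - 1 / b) r =
      (Ioo 0 b).indicator (fun r => r - r ^ 2 / b) r := by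
    intro r hr
    have hr0 : 0 < r := hr
    by_cases h : r < b
    · rw [indicator_of_mem (mem_Iio.2 h), indicator_of_mem (show r ∈ Ioo 0 b from ⟨hr, h⟩)]
      field_simp
    · rw [indicator_of_notMem (fun h' => h (mem_Iio.1 h')),
        indicator_of_notMem (fun h' => h h'.2), mul_zero]
  have hc : Continuous (fun r : ℝ => r - r ^ 2 / b) := by fun_prop
  have hII : IntegrableOn (fun r : ℝ => r - r ^ 2 / b) (Ioo 0 b) :=
    (hc.continuousOn.integrableOn_compact isCompact_Icc).mono_set Ioo_subset_Icc_self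
  rw [hind]
  constructor
  · rw [polar_integrable (fun r => (Iio b).indicator (fun r => 1 / r - 1 / b) r),
      integrableOn_congr_fun hind2 measurableSet_Ioi]
    exact ((integrable_indicator_iff measurableSet_Ioo).2 hII).integrableOn
  · rw [polar (fun r => (Iio b).indicator (fun r => 1 / r - 1 / b) r),
      setIntegral_congr_fun measurableSet_Ioi hind2, setIntegral_indicator measurableSet_Ioo]
    have h1 : Ioi (0 : ℝ) ∩ Ioo 0 b = Ioo 0 b := inter_eq_right.2 fun r hr => hr.1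
    rw [h1, ← integral_Ioc_eq_integral_Ioo, ← intervalIntegral.integral_of_le hb.le,
      intervalIntegral.integral_sub (by simp) (Continuous.intervalIntegrable (by fun_prop) _ _),
      intervalIntegral.integral_div, integral_id, integral_pow]
    field_simp
    ring

/-- if the difference of two densities is larger inside a ball than at its boundary, the larger
density is small there -/
lemma step {Z μ μ' : ℝ} {ρ ρ' : E3 → ℝ} (h : EA Z μ ρ) (h' : EA Z μ' ρ') (hμ : μ ≤ μ')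
    {y : E3} (hy : y ≠ 0) (hy0 : uu Z μ' ρ' y = 0) (hyp : 0 < uu Z μ ρ y)
    (hg : ∀ x : E3, x ≠ 0 → ‖x‖ < ‖y‖ → ρ' x - ρ' y ≤ ρ x - ρ y) :
    ‖y‖ ^ 4 * uu Z μ ρ y ≤ 9 / (4 * Real.pi ^ 2) := by
  have hb : 0 < ‖y‖ := norm_pos_iff.2 hy
  set b := ‖y‖ with hbd
  set c := ρ y with hc
  have hρ'y : ρ' y = 0 := by
    rw [h'.eq', hy0]
    exact be_zero_of le_rfl
  obtain ⟨m1, m2⟩ := EL_mono h' h hμ
  have n1 := h.nice
  have n2 := h'.nice
  have ng := nice_sub' n1 n2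
  have hc0 : 0 ≤ c := h.nonneg y
  -- potential of the difference
  have p0 : pot ρ 0 - pot ρ' 0 ≤ μ' - μ := by
    have := m1 0
    linarith
  have py : pot ρ y - pot ρ' y = μ' - μ - uu Z μ ρ y := by
    unfold uu at hy0 ⊢
    linarith
  have q0 : pot ρ 0 - pot ρ' 0 = ∫ v, (ρ v - ρ' v) / ‖v‖ := by
    rw [← pot_sub n1 n2]
    unfold pot
    refine integral_congr_ae (Eventually.of_forall fun v => ?_)
    simp
  have qy : pot ρ y - pot ρ' y = ∫ v, (ρ v - ρ' v) / max b ‖v‖ := by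
    rw [pot_EA h, pot_EA h', ← integral_sub (int_max n1 hb) (int_max n2 hb)]
    refine integral_congr_ae (Eventually.of_forall fun v => ?_)
    simp only
    ring
  obtain ⟨B, hB⟩ := nice_bound _ ng
  have i0 : Integrable (fun v => (ρ v - ρ' v) / ‖v‖) := by
    have := (hB 0).1
    simpa using this
  have iy : Integrable (fun v => (ρ v - ρ' v) / max b ‖v‖) := int_max ng hb
  obtain ⟨j1, j2⟩ := ball_diff hb
  have key : c * (2 * Real.pi / 3 * b ^ 2) ≤
      (∫ v, (ρ v - ρ' v) / ‖v‖) - ∫ v, (ρ v - ρ' v) / max b ‖v‖ := by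
    rw [← j2, ← integral_const_mul, ← integral_sub i0 iy]
    refine integral_mono_ae (j1.const_mul c) (i0.sub iy) ?_
    filter_upwards [ae_ne_zero] with v hv
    have hv0 : 0 < ‖v‖ := norm_pos_iff.2 hv
    by_cases hvb : ‖v‖ < b
    · rw [indicator_of_mem (mem_ball_zero_iff.2 hvb)]
      rw [max_eq_left hvb.le]
      have h1 := hg v hv hvb
      rw [hρ'y, sub_zero] at h1
      have h2 : 0 ≤ 1 / ‖v‖ - 1 / b := by
        rw [sub_nonneg]
        exact one_div_le_one_div_of_le hv0 hvb.le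
      have h3 : c ≤ ρ v - ρ' v := by linarith
      calc c * (1 / ‖v‖ - 1 / b) ≤ (ρ v - ρ' v) * (1 / ‖v‖ - 1 / b) :=
            mul_le_mul_of_nonneg_right h3 h2
        _ = _ := by ring
    · rw [indicator_of_notMem (fun h1 => hvb (mem_ball_zero_iff.1 h1)), mul_zero]
      push Not at hvb
      rw [max_eq_right hvb, sub_self]
  rw [← q0, ← qy] at key
  have hfin : c * (2 * Real.pi / 3 * b ^ 2) ≤ uu Z μ ρ y := by linarith
  -- conclude
  set U := uu Z μ ρ y with hU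
  have hcU : c = √U ^ 3 := by
    rw [hc, h.eq', be_sqrt, max_eq_left hyp.le]
  have hs : 0 < √U := Real.sqrt_pos.2 hyp
  have hss : √U ^ 2 = U := Real.sq_sqrt hyp.le
  have h7 : √U * (2 * Real.pi / 3 * b ^ 2) ≤ 1 := by
    rw [hcU, ← hss] at hfin
    have h8 : √U ^ 2 * (√U * (2 * Real.pi / 3 * b ^ 2)) ≤ √U ^ 2 * 1 := by
      have e : √U ^ 2 * (√U * (2 * Real.pi / 3 * b ^ 2)) =
          √U ^ 3 * (2 * Real.pi / 3 * b ^ 2) := by ring
      rw [e, mul_one]
      simpa [hss] using hfin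
    exact le_of_mul_le_mul_left h8 (by positivity)
  have hpi := Real.pi_pos
  have h9 : √U * b ^ 2 ≤ 3 / (2 * Real.pi) := by
    rw [le_div_iff₀ (by positivity)]
    linarith
  have h10 : (√U * b ^ 2) ^ 2 ≤ (3 / (2 * Real.pi)) ^ 2 :=
    pow_le_pow_left₀ (by positivity) h9 2
  calc b ^ 4 * U = (√U * b ^ 2) ^ 2 := by
        rw [mul_pow, hss]
        ring
    _ ≤ (3 / (2 * Real.pi)) ^ 2 := h10
    _ = 9 / (4 * Real.pi ^ 2) := by
        rw [div_pow]
        ring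

end Pool.Agent.Q204.TFM
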