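import Pool.Agent.Q204.TFM.Concl

/-!
# Thomas-Fermi atoms: the ionic charge as a function of the radius
-/

set_option autoImplicit false
open MeasureTheory Set Filter Topology Metric
open scoped RealInnerProductSpace BigOperators ENNReal
open Pool.Agent.Helper557 Pool.Agent.Helper557.TFP Pool.Agent.H9R2.TF

namespace Pool.Agent.Q204.TFM

/-- solutions of the Thomas-Fermi equation minimise the grand canonical energy -/
theorem el_min' {k : ℕ} {z : Fin k → ℝ} {R : Fin k → E3} {Φ : ℝ} {ρ σ : E3 → ℝ}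
    (h : ELs z R Φ ρ) (hσ : Adm σ) :
    EF z R ρ + Φ * ∫ x, ρ x ≤ EF z R σ + Φ * ∫ x, σ x := by
  have nσ := nice_of_adm hσ
  have nρ := h.nice
  have hρA : Adm ρ := adm_of_nice nρ h.nonneg
  have nδ := nice_sub' nσ nρ
  set F : E3 → ℝ := fun x => 3 / 5 * σ x ^ (5/3 : ℝ) - 3 / 5 * ρ x ^ (5/3 : ℝ) -
    (VV z R x * σ x - VV z R x * ρ x) + (σ x * pot ρ x - ρ x * pot ρ x) +
    Φ * (σ x - ρ x) with hF
  have hF0 : ∀ x, 0 ≤ F x := by
    intro x
    have h1 := young (VV z R x - pot ρ x - Φ) (hσ.2.1 x)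
    have h2 := young_eq (VV z R x - pot ρ x - Φ)
    rw [← h.eq x] at h2
    simp only [hF]
    linarith
  have i1 := hσ.2.2.2.const_mul (3 / 5 : ℝ)
  have i2 := hρA.2.2.2.const_mul (3 / 5 : ℝ)
  have i3 := vint z R nσ
  have i4 := vint z R nρ
  have i5 := TF_E1_int σ ρ nσ.2.1 nρ
  have i6 := TF_E1_int ρ ρ nρ.2.1 nρ
  have i7 := (nσ.2.1.sub nρ.2.1).const_mul Φ
  have hint : ∫ x, F x = 3 / 5 * (∫ x, σ x ^ (5/3 : ℝ)) - 3 / 5 * (∫ x, ρ x ^ (5/3 : ℝ)) -
      ((∫ x, VV z R x * σ x) - ∫ x, VV z R x * ρ x) +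
      ((∫ x, σ x * pot ρ x) - ∫ x, ρ x * pot ρ x) + Φ * ((∫ x, σ x) - ∫ x, ρ x) := by
    have e1 : ∫ x, F x = (∫ x, (3 / 5 * σ x ^ (5/3 : ℝ) - 3 / 5 * ρ x ^ (5/3 : ℝ) -
        (VV z R x * σ x - VV z R x * ρ x) + (σ x * pot ρ x - ρ x * pot ρ x))) +
        ∫ x, Φ * (σ x - ρ x) :=
      integral_add (((i1.sub i2).sub (i3.sub i4)).add (i5.sub i6)) i7
    have e2 : ∫ x, (3 / 5 * σ x ^ (5/3 : ℝ) - 3 / 5 * ρ x ^ (5/3 : ℝ) -
        (VV z R x * σ x - VV z R x * ρ x) + (σ x * pot ρ x - ρ x * pot ρ x)) =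
        (∫ x, (3 / 5 * σ x ^ (5/3 : ℝ) - 3 / 5 * ρ x ^ (5/3 : ℝ) -
        (VV z R x * σ x - VV z R x * ρ x))) + ∫ x, (σ x * pot ρ x - ρ x * pot ρ x) :=
      integral_add ((i1.sub i2).sub (i3.sub i4)) (i5.sub i6)
    have e3 : ∫ x, (3 / 5 * σ x ^ (5/3 : ℝ) - 3 / 5 * ρ x ^ (5/3 : ℝ) -
        (VV z R x * σ x - VV z R x * ρ x)) =
        (∫ x, (3 / 5 * σ x ^ (5/3 : ℝ) - 3 / 5 * ρ x ^ (5/3 : ℝ))) -
        ∫ x, (VV z R x * σ x - VV z R x * ρ x) :=
      integral_sub (i1.sub i2) (i3.sub i4)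
    rw [e1, e2, e3, integral_sub i1 i2, integral_sub i3 i4, integral_sub i5 i6,
      integral_const_mul, integral_const_mul, integral_const_mul, integral_sub nσ.2.1 nρ.2.1]
  have hnn : 0 ≤ ∫ x, F x := integral_nonneg hF0
  have hpd := pot_pos nδ
  have hsplit : ∫ x, (σ x - ρ x) * pot (fun y => σ y - ρ y) x =
      (∫ x, σ x * pot σ x) - (∫ x, σ x * pot ρ x) - (∫ x, σ x * pot ρ x) +
        ∫ x, ρ x * pot ρ x := by
    have e0 : ∀ x, (σ x - ρ x) * pot (fun y => σ y - ρ y) x =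
        (σ x * pot σ x - σ x * pot ρ x) - (ρ x * pot σ x - ρ x * pot ρ x) := by
      intro x
      rw [pot_sub nσ nρ]
      ring
    simp only [e0]
    have j1 := TF_E1_int σ σ nσ.2.1 nσ
    have j2 := TF_E1_int ρ σ nρ.2.1 nσ
    have e1 : ∫ x, ((σ x * pot σ x - σ x * pot ρ x) - (ρ x * pot σ x - ρ x * pot ρ x)) =
        (∫ x, (σ x * pot σ x - σ x * pot ρ x)) - ∫ x, (ρ x * pot σ x - ρ x * pot ρ x) :=
      integral_sub (j1.sub i5) (j2.sub i6)
    rw [e1, integral_sub j1 i5, integral_sub j2 i6, TF_E1_symm ρ σ nρ nσ]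
    ring
  rw [hsplit] at hpd
  rw [hint] at hnn
  unfold EF
  linarith

lemma kern_anti {b c w : ℝ} (hb : 0 < b) (hbc : b ≤ c) :
    1 / c - 1 / max c w ≤ 1 / b - 1 / max b w := by
  have hc : 0 < c := hb.trans_le hbc
  rcases le_total w b with h | h
  · rw [max_eq_left h, max_eq_left (h.trans hbc)]
    simp
  · rcases le_total w c with h' | h'
    · rw [max_eq_left h', max_eq_right h, sub_self, sub_nonneg]
      exact one_div_le_one_div_of_le hb h
    · rw [max_eq_right h', max_eq_right h]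
      have := one_div_le_one_div_of_le hb hbc
      linarith

/-- the potential is decreasing -/
lemma uu_anti {Z μ : ℝ} {ρ : E3 → ℝ} (h : EA Z μ ρ) (hZ : ∫ y, ρ y ≤ Z) {x y : E3} (hx : x ≠ 0)
    (hxy : ‖x‖ ≤ ‖y‖) : uu Z μ ρ y ≤ uu Z μ ρ x := by
  have hx0 : 0 < ‖x‖ := norm_pos_iff.2 hx
  have hy0 : 0 < ‖y‖ := hx0.trans_le hxy
  have hy : y ≠ 0 := norm_pos_iff.1 hy0
  rw [uu_eq h hx, uu_eq h hy]
  have hi : ∀ b : ℝ, 0 < b → Integrable (fun v => ρ v * (1 / b - 1 / max b ‖v‖)) := by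
    intro b hb
    refine ((h.nice.2.1.mul_const (1 / b)).sub (int_max h.nice hb)).congr
      (Eventually.of_forall fun v => ?_)
    simp only [Pi.sub_apply]
    ring
  have h1 : ∫ v, ρ v * (1 / ‖y‖ - 1 / max ‖y‖ ‖v‖) ≤ ∫ v, ρ v * (1 / ‖x‖ - 1 / max ‖x‖ ‖v‖) :=
    integral_mono (hi _ hy0) (hi _ hx0) fun v =>
      mul_le_mul_of_nonneg_left (kern_anti hx0 hxy) (h.nonneg v)
  have h2 : (Z - ∫ v, ρ v) / ‖y‖ ≤ (Z - ∫ v, ρ v) / ‖x‖ :=
    div_le_div_of_nonneg_left (sub_nonneg.2 hZ) hx0 hxy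
  linarith

lemma out_zero {Z μ : ℝ} {ρ : E3 → ℝ} (h : EA Z μ ρ) (hZ : ∫ y, ρ y ≤ Z) {a : ℝ} (ha : 0 < a)
    (h0 : uu Z μ ρ (a • e1) ≤ 0) {y : E3} (hy : a ≤ ‖y‖) : ρ y = 0 := by
  rw [h.eq' y]
  apply be_zero_of
  have hn : ‖a • e1‖ = a := norm_smul_e1 ha.le
  have hne : a • e1 ≠ 0 := by
    rw [← norm_pos_iff, hn]
    exact ha
  exact (uu_anti h hZ hne (by rw [hn]; exact hy)).trans h0

lemma vol_ball {r : ℝ} (hr : 0 ≤ r) : (volume : Measure E3).real (ball 0 r) =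
    4 / 3 * Real.pi * r ^ 3 := by
  rw [Measure.real, EuclideanSpace.volume_ball_fin_three, ENNReal.toReal_mul,
    ENNReal.toReal_pow, ENNReal.toReal_ofReal hr, ENNReal.toReal_ofReal (by positivity)]
  ring

/-- the open shell with radii `r` and `r'` -/
def shell (r r' : ℝ) : Set E3 := ball 0 r' \ closedBall 0 r

lemma shell_meas (r r' : ℝ) : MeasurableSet (shell r r') :=
  measurableSet_ball.diff measurableSet_closedBall

lemma mem_shell {r r' : ℝ} {x : E3} : x ∈ shell r r' ↔ r < ‖x‖ ∧ ‖x‖ < r' := by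
  unfold shell
  rw [Set.mem_sdiff, mem_ball_zero_iff, mem_closedBall_zero_iff, not_le]
  exact and_comm

lemma shell_fin (r r' : ℝ) : (volume : Measure E3) (shell r r') ≠ ⊤ :=
  ne_top_of_le_ne_top measure_ball_lt_top.ne (measure_mono Set.sdiff_subset)

lemma vol_shell {r r' : ℝ} (hr : 0 ≤ r) (hr' : r < r') :
    (volume : Measure E3).real (shell r r') = 4 / 3 * Real.pi * (r' ^ 3 - r ^ 3) := by
  unfold shell
  have h1 : (volume : Measure E3).real (closedBall 0 r) = 4 / 3 * Real.pi * r ^ 3 := by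
    rw [← vol_ball hr, Measure.real, Measure.real, Measure.addHaar_closedBall_eq_addHaar_ball]
  have h2 := measureReal_sdiff (μ := (volume : Measure E3))
    (closedBall_subset_ball hr' : closedBall (0 : E3) r ⊆ ball 0 r') measurableSet_closedBall
  rw [h2, vol_ball (hr.trans hr'.le), h1]
  ring

lemma mass_lower {ρ : E3 → ℝ} (hn : Nice ρ) {A : Set E3} (hA : MeasurableSet A)
    (hAf : (volume : Measure E3) A ≠ ⊤) {c : ℝ} (hc : ∀ x ∈ A, x ≠ 0 → c ≤ ρ x) :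
    c * (volume : Measure E3).real A ≤ ∫ x in A, ρ x := by
  have h1 : ∫ _x in A, c = c * (volume : Measure E3).real A := by
    rw [setIntegral_const, smul_eq_mul, mul_comm]
  rw [← h1]
  refine setIntegral_mono_on_ae (integrableOn_const hAf) hn.2.1.integrableOn hA ?_
  filter_upwards [ae_ne_zero] with x hx hxA
  exact hc x hxA hx

lemma mass_le {ρ : E3 → ℝ} (hn : Nice ρ) (h0 : ∀ x, 0 ≤ ρ x) {A : Set E3} :
    ∫ x in A, ρ x ≤ ∫ x, ρ x :=
  setIntegral_le_integral hn.2.1 (Eventually.of_forall h0)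

/-- the chemical potential of the ion of radius `s³` -/
lemma charge_bound {μ s : ℝ} (hs : 0 < s) (hμ : 0 < μ) {ρ : E3 → ℝ} (h : EA 1 μ ρ)
    (h0 : uu 1 μ ρ ((s ^ 3) • e1) = 0) : μ ≤ 9 / s ^ 8 ∧ 1 - ∫ y, ρ y = s ^ 3 * μ := by
  have hq := charge_pos one_pos hμ h
  obtain ⟨a, hadef⟩ : ∃ a, a = s ^ 3 := ⟨_, rfl⟩
  rw [← hadef] at h0 ⊢
  have ha : 0 < a := by rw [hadef]; positivity
  have hn : ‖a • e1‖ = a := norm_smul_e1 ha.le
  have hne : a • e1 ≠ 0 := by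
    rw [← norm_pos_iff, hn]
    exact ha
  have hout : ∀ y, a ≤ ‖y‖ → ρ y = 0 := fun y hy => out_zero h hq.le ha h0.le hy
  set q := 1 - ∫ y, ρ y with hqd
  have hq0 : 0 < q := by linarith
  have hqa : q / a - μ = 0 := by
    have h1 := uu_eq h hne
    rw [h0, hn] at h1
    have h2 : ∫ y, ρ y * (1 / a - 1 / max a ‖y‖) = 0 := by
      rw [← integral_zero E3 ℝ]
      refine integral_congr_ae (Eventually.of_forall fun y => ?_)
      simp only
      rcases le_total a ‖y‖ with hy | hy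
      · rw [hout y hy, zero_mul]
      · rw [max_eq_left hy, sub_self, mul_zero]
    rw [h2, add_zero] at h1
    linarith
  have hqμ : q = a * μ := by
    have h1 : q / a = μ := by linarith
    rw [div_eq_iff ha.ne'] at h1
    linarith
  refine ⟨?_, hqμ⟩
  have hpi := Real.pi_gt_three
  -- the shell
  set A := shell (a / 4) (a / 2) with hA
  set m := ∫ y in A, ρ y with hm
  have hvA : (volume : Measure E3).real A = 4 / 3 * Real.pi * ((a / 2) ^ 3 - (a / 4) ^ 3) :=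
    vol_shell (by positivity) (by linarith)
  have hm1 : √μ ^ 3 * (volume : Measure E3).real A ≤ m := by
    refine mass_lower h.nice (shell_meas _ _) (shell_fin _ _) fun x hxA hx => ?_
    have hx0 : 0 < ‖x‖ := norm_pos_iff.2 hx
    have hx1 := (mem_shell.1 hxA).2
    rw [h.eq' x, be_sqrt]
    refine pow_le_pow_left₀ (Real.sqrt_nonneg _) (Real.sqrt_le_sqrt ?_) 3
    refine le_trans ?_ (le_max_left _ _)
    have h1 := uu_ge h hx
    have h2 : 2 * μ ≤ q / ‖x‖ := by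
      rw [le_div_iff₀ hx0, hqμ]
      nlinarith
    rw [← hqd] at h1
    linarith
  have hm0 : 0 ≤ m := setIntegral_nonneg (shell_meas _ _) fun x _ => h.nonneg x
  -- the inner ball
  have hm2 : √(4 * m / a) ^ 3 * (volume : Measure E3).real (ball (0 : E3) (a / 8)) ≤
      ∫ y in ball (0 : E3) (a / 8), ρ y := by
    refine mass_lower h.nice measurableSet_ball measure_ball_lt_top.ne fun x hxA hx => ?_
    have hx0 : 0 < ‖x‖ := norm_pos_iff.2 hx
    have hx1 : ‖x‖ < a / 8 := mem_ball_zero_iff.1 hxA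
    rw [h.eq' x, be_sqrt]
    refine pow_le_pow_left₀ (Real.sqrt_nonneg _) (Real.sqrt_le_sqrt ?_) 3
    refine le_trans ?_ (le_max_left _ _)
    rw [uu_eq h hx, ← hqd]
    have h2 : μ ≤ q / ‖x‖ := by
      rw [le_div_iff₀ hx0, hqμ]
      nlinarith
    have h3 : 4 * m / a ≤ ∫ y, ρ y * (1 / ‖x‖ - 1 / max ‖x‖ ‖y‖) := by
      have hi : Integrable (fun v => ρ v * (1 / ‖x‖ - 1 / max ‖x‖ ‖v‖)) := by
        refine ((h.nice.2.1.mul_const (1 / ‖x‖)).sub (int_max h.nice hx0)).congr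
          (Eventually.of_forall fun v => ?_)
        simp only [Pi.sub_apply]
        ring
      have h4 : ∫ y in A, ρ y * (4 / a) ≤ ∫ y in A, ρ y * (1 / ‖x‖ - 1 / max ‖x‖ ‖y‖) := by
        refine setIntegral_mono_on (h.nice.2.1.mul_const _).integrableOn hi.integrableOn
          (shell_meas _ _) fun y hy => mul_le_mul_of_nonneg_left ?_ (h.nonneg y)
        have hy1 := (mem_shell.1 hy).1
        rw [max_eq_right (by linarith)]
        have h5 : 8 / a ≤ 1 / ‖x‖ := by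
          rw [div_le_div_iff₀ ha hx0]
          linarith
        have h6 : 1 / ‖y‖ ≤ 4 / a := by
          rw [div_le_div_iff₀ (by linarith) ha]
          linarith
        have h7 : 8 / a = 4 / a + 4 / a := by ring
        linarith
      have h5 : ∫ y in A, ρ y * (1 / ‖x‖ - 1 / max ‖x‖ ‖y‖) ≤
          ∫ y, ρ y * (1 / ‖x‖ - 1 / max ‖x‖ ‖y‖) := by
        refine setIntegral_le_integral hi (Eventually.of_forall fun y => ?_)
        refine mul_nonneg (h.nonneg y) ?_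
        rw [sub_nonneg]
        exact one_div_le_one_div_of_le hx0 (le_max_left _ _)
      have h6 : ∫ y in A, ρ y * (4 / a) = 4 * m / a := by
        rw [integral_mul_const]
        ring
      linarith
    linarith
  have hm3 : ∫ y in ball (0 : E3) (a / 8), ρ y ≤ 1 := (mass_le h.nice h.nonneg).trans hq.le
  rw [vol_ball (by positivity)] at hm2
  set w := √(4 * m / a) with hw
  have hw0 : 0 ≤ w := Real.sqrt_nonneg _
  have hw1 : (w * a) ^ 3 ≤ 6 ^ 3 := by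
    have h1 : w ^ 3 * (4 / 3 * Real.pi * (a / 8) ^ 3) = (w * a) ^ 3 * (Real.pi / 384) := by ring
    rw [h1] at hm2
    have h2 : (w * a) ^ 3 * (3 / 384) ≤ (w * a) ^ 3 * (Real.pi / 384) :=
      mul_le_mul_of_nonneg_left (by linarith) (by positivity)
    linarith
  have hw2 : w * a ≤ 6 := le_of_pow_le_pow_left₀ (by norm_num) (by norm_num) hw1
  have hm4 : m ≤ 9 / a := by
    have h1 : w ^ 2 = 4 * m / a := Real.sq_sqrt (by positivity)
    have h2 : (w * a) ^ 2 ≤ 6 ^ 2 := pow_le_pow_left₀ (by positivity) hw2 2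
    have h3 : (w * a) ^ 2 = 4 * (m * a) := by
      rw [mul_pow, h1]
      field_simp
    rw [le_div_iff₀ ha]
    linarith
  rw [hvA] at hm1
  set v := √μ with hv
  have hv0 : 0 ≤ v := Real.sqrt_nonneg _
  have hv1 : (v * s ^ 4) ^ 3 ≤ 3 ^ 3 := by
    have h1 : v ^ 3 * (4 / 3 * Real.pi * ((a / 2) ^ 3 - (a / 4) ^ 3)) =
        v ^ 3 * a ^ 3 * (7 * Real.pi / 48) := by ring
    rw [h1] at hm1
    have h2 : v ^ 3 * a ^ 3 * (7 / 16) ≤ v ^ 3 * a ^ 3 * (7 * Real.pi / 48) :=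
      mul_le_mul_of_nonneg_left (by linarith) (by positivity)
    have h3 : v ^ 3 * a ^ 3 * (7 / 16) ≤ 9 / a := by linarith
    rw [le_div_iff₀ ha] at h3
    have h4 : (v * s ^ 4) ^ 3 = v ^ 3 * a ^ 3 * a := by
      rw [hadef]
      ring
    rw [h4]
    linarith
  have hv2 : v * s ^ 4 ≤ 3 := le_of_pow_le_pow_left₀ (by norm_num) (by norm_num) hv1
  rw [le_div_iff₀ (by positivity)]
  have h1 : v ^ 2 = μ := Real.sq_sqrt hμ.le
  have h2 : (v * s ^ 4) ^ 2 ≤ 3 ^ 2 := pow_le_pow_left₀ (by positivity) hv2 2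
  have h3 : (v * s ^ 4) ^ 2 = μ * s ^ 8 := by
    rw [mul_pow, h1]
    ring
  linarith

/-- ions of radius at most `s³` -/
lemma exists_ion {s : ℝ} (hs : 0 < s) : ∃ μ, 0 < μ ∧ uu 1 μ (fam 1 μ) ((s ^ 3) • e1) ≤ 0 ∧
    1 - ∫ y, fam 1 μ y ≤ 9 / s ^ 5 ∧ μ ≤ 9 / s ^ 8 := by
  have hn : ‖(s ^ 3) • e1‖ = s ^ 3 := norm_smul_e1 (by positivity)
  have hne : (s ^ 3) • e1 ≠ 0 := by
    rw [← norm_pos_iff, hn]
    positivity
  by_cases hc : ∃ μ, 0 < μ ∧ 0 < uu 1 μ (fam 1 μ) ((s ^ 3) • e1)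
  · obtain ⟨μ, hμ, hp⟩ := hc
    obtain ⟨μ', hμ', h0⟩ := exists_zero one_pos hμ hne hp
    have hμ'0 := hμ.trans hμ'
    obtain ⟨h1, h2⟩ := charge_bound hs hμ'0 (fam_EA one_pos hμ'0) h0
    refine ⟨μ', hμ'0, h0.le, ?_, h1⟩
    rw [h2]
    calc s ^ 3 * μ' ≤ s ^ 3 * (9 / s ^ 8) := mul_le_mul_of_nonneg_left h1 (by positivity)
      _ = 9 / s ^ 5 := by field_simp
  · push Not at hc
    obtain ⟨μ, hμ, hμ1, hq⟩ := charge_small one_pos (ε := 9 / s ^ 5) (μ₁ := 9 / s ^ 8)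
      (by positivity) (by positivity)
    exact ⟨μ, hμ, hc μ hμ, hq.le, hμ1⟩

end Pool.Agent.Q204.TFM
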