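import Pool.Agent.Q204.TFM.SA1

/-!
# Thomas-Fermi atoms: compactly supported neutral densities of nearly minimal energy
-/

set_option autoImplicit false
open MeasureTheory Set Filter Topology Metric
open scoped RealInnerProductSpace BigOperators ENNReal
open Pool.Agent.Helper557 Pool.Agent.Helper557.TFP Pool.Agent.H9R2.TF

namespace Pool.Agent.Q204.TFM

/-- the energy functional of the atom of charge one -/
noncomputable abbrev EA1 (ρ : E3 → ℝ) : ℝ := EF (fun _ : Fin 1 => (1 : ℝ)) (fun _ => (0 : E3)) ρ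

lemma mem_shell' {r r' : ℝ} {x : E3} : x ∈ shell r r' ↔ ‖x‖ ∈ Ioo r r' := mem_shell

lemma ind_shell (a b c : ℝ) :
    (shell a b).indicator (fun _ => c) = fun x : E3 => (Ioo a b).indicator (fun _ => c) ‖x‖ := by
  funext x
  by_cases hx : x ∈ shell a b
  · rw [indicator_of_mem hx, indicator_of_mem (mem_shell'.1 hx)]
  · rw [indicator_of_notMem hx, indicator_of_notMem (fun h => hx (mem_shell'.2 h))]

lemma pot_shell_le {a b c : ℝ} (ha : 0 < a) (hc : 0 ≤ c) (x : E3) :
    pot ((shell a b).indicator fun _ => c) x ≤ c * (volume : Measure E3).real (shell a b) / a := by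
  have h1 : pot ((shell a b).indicator fun _ => c) x =
      ∫ y : E3, (Ioo a b).indicator (fun _ => c) ‖y‖ / max ‖x‖ ‖y‖ := by
    rw [ind_shell]
    exact newton_radial ((measurable_const).indicator measurableSet_Ioo) x
  have hi : Integrable ((shell a b).indicator fun _ : E3 => c) :=
    (integrable_indicator_iff (shell_meas a b)).2 (integrableOn_const (shell_fin a b))
  have h2 : ∫ y : E3, (shell a b).indicator (fun _ => c) y / a =
      c * (volume : Measure E3).real (shell a b) / a := by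
    rw [integral_div, integral_indicator (shell_meas a b), setIntegral_const, smul_eq_mul,
      mul_comm c]
  rw [h1, ← h2]
  refine integral_mono_of_nonneg (Eventually.of_forall fun y => ?_) (hi.div_const a)
    (Eventually.of_forall fun y => ?_)
  · exact div_nonneg (indicator_nonneg (fun _ _ => hc) _)
      ((norm_nonneg x).trans (le_max_left _ _))
  · simp only
    by_cases hy : y ∈ shell a b
    · rw [indicator_of_mem hy, indicator_of_mem (mem_shell'.1 hy)]
      exact div_le_div_of_nonneg_left hc ha (((mem_shell.1 hy).1.le).trans (le_max_right _ _))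
    · rw [indicator_of_notMem hy, indicator_of_notMem (fun h => hy (mem_shell'.2 h)), zero_div,
        zero_div]

/-- the energy of an ion with the missing charge put outside -/
lemma energy_add {μ a : ℝ} (ha : 0 < a) {ρ : E3 → ℝ} (h : EA 1 μ ρ) (hZ : ∫ y, ρ y ≤ 1)
    (h0 : uu 1 μ ρ (a • e1) ≤ 0) {b c : ℝ} (hc : 0 ≤ c) :
    Adm (fun x => ρ x + (shell a b).indicator (fun _ => c) x) ∧
    ∫ x, (ρ x + (shell a b).indicator (fun _ => c) x) =
      (∫ x, ρ x) + c * (volume : Measure E3).real (shell a b) ∧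
    EA1 (fun x => ρ x + (shell a b).indicator (fun _ => c) x) ≤
      EA1 ρ + 3 / 5 * (c ^ (5/3 : ℝ) * (volume : Measure E3).real (shell a b)) +
        1 / 2 * (c * (volume : Measure E3).real (shell a b)) *
          (c * (volume : Measure E3).real (shell a b) / a) := by
  set s : E3 → ℝ := (shell a b).indicator (fun _ => c) with hs
  set V := (volume : Measure E3).real (shell a b) with hV
  have hout : ∀ y, a ≤ ‖y‖ → ρ y = 0 := fun y hy => out_zero h hZ ha h0 hy
  have hs0 : ∀ x, 0 ≤ s x := fun x => indicator_nonneg (fun _ _ => hc) x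
  have hsm : Measurable s := measurable_const.indicator (shell_meas a b)
  have hind : ∀ d : ℝ, Integrable ((shell a b).indicator fun _ : E3 => d) := fun d =>
    (integrable_indicator_iff (shell_meas a b)).2 (integrableOn_const (shell_fin a b))
  have hindv : ∀ d : ℝ, ∫ x, (shell a b).indicator (fun _ : E3 => d) x = d * V := fun d => by
    rw [integral_indicator (shell_meas a b), setIntegral_const, smul_eq_mul, mul_comm]
  have hsp : (fun x => s x ^ (5/3 : ℝ)) = (shell a b).indicator (fun _ => c ^ (5/3 : ℝ)) := by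
    funext x
    by_cases hx : x ∈ shell a b
    · rw [hs, indicator_of_mem hx, indicator_of_mem hx]
    · rw [hs, indicator_of_notMem hx, indicator_of_notMem hx]
      exact Real.zero_rpow (by norm_num)
  have hsA : Adm s := ⟨hsm, hs0, hind c, by rw [hsp]; exact hind _⟩
  have nρ := h.nice
  have hρA : Adm ρ := adm_of_nice nρ h.nonneg
  have ns := nice_of_adm hsA
  have hdis : ∀ x, ρ x = 0 ∨ s x = 0 := by
    intro x
    by_cases hx : x ∈ shell a b
    · exact Or.inl (hout x (mem_shell.1 hx).1.le)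
    · exact Or.inr (by rw [hs, indicator_of_notMem hx])
  have hpow : (fun x => (ρ x + s x) ^ (5/3 : ℝ)) = fun x => ρ x ^ (5/3 : ℝ) + s x ^ (5/3 : ℝ) := by
    funext x
    rcases hdis x with h1 | h1
    · rw [h1, zero_add, Real.zero_rpow (by norm_num), zero_add]
    · rw [h1, add_zero, Real.zero_rpow (by norm_num), add_zero]
  have hA : Adm (fun x => ρ x + s x) :=
    ⟨nρ.1.add hsm, fun x => add_nonneg (h.nonneg x) (hs0 x), nρ.2.1.add ns.2.1, by
      rw [hpow]; exact hρA.2.2.2.add hsA.2.2.2⟩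
  refine ⟨hA, ?_, ?_⟩
  · rw [integral_add nρ.2.1 ns.2.1, hindv]
  · have hpot : ∀ x, pot (fun y => ρ y + s y) x = pot ρ x + pot s x := by
      intro x
      have h1 : (fun y => ρ y + s y) = fun y => ρ y - -(s y) := by
        funext y
        ring
      rw [h1, pot_sub nρ (TF_hsub_nice_neg s ns), TF_hsub_pot_neg]
      ring
    have k1 : ∫ x, (ρ x + s x) ^ (5/3 : ℝ) = (∫ x, ρ x ^ (5/3 : ℝ)) + c ^ (5/3 : ℝ) * V := by
      rw [hpow, integral_add hρA.2.2.2 hsA.2.2.2, hsp, hindv]
    have k2 : ∫ x, VV (fun _ : Fin 1 => (1 : ℝ)) (fun _ => (0 : E3)) x * (ρ x + s x) =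
        (∫ x, VV (fun _ : Fin 1 => (1 : ℝ)) (fun _ => (0 : E3)) x * ρ x) +
        ∫ x, VV (fun _ : Fin 1 => (1 : ℝ)) (fun _ => (0 : E3)) x * s x := by
      rw [← integral_add (vint _ _ nρ) (vint _ _ ns)]
      refine integral_congr_ae (Eventually.of_forall fun x => ?_)
      simp only
      ring
    have k3 : ∫ x, (ρ x + s x) * pot (fun y => ρ y + s y) x =
        (∫ x, ρ x * pot ρ x) + 2 * (∫ x, s x * pot ρ x) + ∫ x, s x * pot s x := by
      have e0 : ∀ x, (ρ x + s x) * pot (fun y => ρ y + s y) x =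
          (ρ x * pot ρ x + ρ x * pot s x) + (s x * pot ρ x + s x * pot s x) := by
        intro x
        rw [hpot]
        ring
      simp only [e0]
      have j1 := TF_E1_int ρ ρ nρ.2.1 nρ
      have j2 := TF_E1_int ρ s nρ.2.1 ns
      have j3 := TF_E1_int s ρ ns.2.1 nρ
      have j4 := TF_E1_int s s ns.2.1 ns
      have e1 : ∫ x, ((ρ x * pot ρ x + ρ x * pot s x) + (s x * pot ρ x + s x * pot s x)) =
          (∫ x, (ρ x * pot ρ x + ρ x * pot s x)) + ∫ x, (s x * pot ρ x + s x * pot s x) :=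
        integral_add (j1.add j2) (j3.add j4)
      rw [e1, integral_add j1 j2, integral_add j3 j4, TF_E1_symm ρ s nρ ns]
      ring
    have k4 : ∫ x, s x * pot ρ x ≤ ∫ x, VV (fun _ : Fin 1 => (1 : ℝ)) (fun _ => (0 : E3)) x * s x := by
      refine integral_mono (TF_E1_int s ρ ns.2.1 nρ) (vint _ _ ns) fun x => ?_
      simp only
      by_cases hx : x ∈ shell a b
      · rw [mul_comm (VV _ _ x)]
        refine mul_le_mul_of_nonneg_left ?_ (hs0 x)
        have hx1 := (mem_shell.1 hx).1
        have hx0 : 0 < ‖x‖ := ha.trans hx1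
        have h1 := uu_ge h (norm_pos_iff.1 hx0)
        have h2 : 0 ≤ (1 - ∫ y, ρ y) / ‖x‖ := div_nonneg (by linarith) hx0.le
        rw [VV_atom]
        unfold uu at h1
        linarith
      · have : s x = 0 := by rw [hs, indicator_of_notMem hx]
        rw [this, zero_mul, mul_zero]
    have k5 : ∫ x, s x * pot s x ≤ c * V * (c * V / a) := by
      have h1 : ∫ x, s x * pot s x ≤ ∫ x, s x * (c * V / a) :=
        integral_mono (TF_E1_int s s ns.2.1 ns) (ns.2.1.mul_const _) fun x =>
          mul_le_mul_of_nonneg_left (pot_shell_le ha hc x) (hs0 x)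
      rw [integral_mul_const, hindv] at h1
      exact h1
    unfold EA1 EF
    rw [k1, k2, k3]
    linarith

/-- **neutral atoms in a ball of radius `2 s³`** -/
theorem trial {s : ℝ} (hs : 1 ≤ s) : ∃ g : ℝ → ℝ, Measurable g ∧
    Adm (fun x : E3 => g ‖x‖) ∧ ∫ x : E3, g ‖x‖ = 1 ∧ (∀ r, 2 * s ^ 3 ≤ r → g r = 0) ∧
    ∀ σ, Adm σ → ∫ x, σ x = 1 → EA1 (fun x => g ‖x‖) ≤ EA1 σ + 200 / s ^ 13 := by
  have hs0 : 0 < s := by linarith
  obtain ⟨μ, hμ, h0, hq, hμ1⟩ := exists_ion hs0
  have h := fam_EA one_pos hμ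
  set ρ := fam 1 μ with hρ
  have hZ := charge_pos one_pos hμ h
  set q := 1 - ∫ y, ρ y with hqd
  have hq0 : 0 < q := by linarith
  have ha : 0 < s ^ 3 := by positivity
  have hpi := Real.pi_gt_three
  set V := (volume : Measure E3).real (shell (s ^ 3) (2 * s ^ 3)) with hV
  have hVe : V = 28 / 3 * Real.pi * s ^ 9 := by
    rw [hV, vol_shell ha.le (by linarith)]
    ring
  have hV1 : s ^ 9 ≤ V := by
    rw [hVe]
    have : (0 : ℝ) < s ^ 9 := by positivity
    nlinarith
  have hV0 : 0 < V := lt_of_lt_of_le (by positivity) hV1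
  set c := q / V with hc
  have hc0 : 0 ≤ c := by positivity
  have hcV : c * V = q := div_mul_cancel₀ _ hV0.ne'
  obtain ⟨p1, p2, p3⟩ := energy_add ha h hZ.le h0 (b := 2 * s ^ 3) hc0
  rw [← hV, hcV] at p2 p3
  set g : ℝ → ℝ := fun r => prof ρ r + (Ioo (s ^ 3) (2 * s ^ 3)).indicator (fun _ => c) r with hg
  have hge : (fun x : E3 => g ‖x‖) =
      fun x => ρ x + (shell (s ^ 3) (2 * s ^ 3)).indicator (fun _ => c) x := by
    funext x
    simp only [hg]
    rw [ind_shell, ← prof_eq h x]
  refine ⟨g, (prof_meas h).add (measurable_const.indicator measurableSet_Ioo), ?_, ?_, ?_, ?_⟩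
  · rw [hge]
    exact p1
  · rw [hge, p2]
    ring
  · intro r hr
    have hr0 : 0 < r := by linarith
    simp only [hg]
    rw [indicator_of_notMem (fun hx => absurd hx.2 (not_lt.2 hr)), add_zero]
    unfold prof
    apply out_zero h hZ.le ha h0
    rw [norm_smul_e1 hr0.le]
    linarith
  · intro σ hσ hσ1
    have h1 : EA1 ρ + μ * ∫ x, ρ x ≤ EA1 σ + μ * ∫ x, σ x := el_min' h hσ
    rw [hσ1] at h1
    have h2 : EA1 ρ ≤ EA1 σ + μ * q := by
      rw [hqd]
      linarith
    have hμq : μ * q ≤ 81 / s ^ 13 := by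
      calc μ * q ≤ (9 / s ^ 8) * (9 / s ^ 5) := mul_le_mul hμ1 hq hq0.le (by positivity)
        _ = 81 / s ^ 13 := by field_simp; norm_num
    have hqq : q * (q / s ^ 3) ≤ 81 / s ^ 13 := by
      calc q * (q / s ^ 3) ≤ (9 / s ^ 5) * ((9 / s ^ 5) / s ^ 3) := by gcongr
        _ = 81 / s ^ 13 := by field_simp; norm_num
    have hcs : c ≤ 9 / s ^ 14 := by
      calc c = q / V := rfl
        _ ≤ (9 / s ^ 5) / s ^ 9 := by gcongr
        _ = 9 / s ^ 14 := by field_simp
    have hc23 : c ^ (2/3 : ℝ) ≤ 9 / s ^ 8 := by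
      have e1 : c ^ (2/3 : ℝ) = (c ^ 2) ^ (1/3 : ℝ) := by
        rw [← Real.rpow_natCast c 2, ← Real.rpow_mul hc0]
        norm_num
      have e2 : (9 / s ^ 8 : ℝ) = ((9 / s ^ 8) ^ 3) ^ (1/3 : ℝ) := by
        rw [← Real.rpow_natCast (9 / s ^ 8 : ℝ) 3, ← Real.rpow_mul (by positivity)]
        norm_num
      rw [e1, e2]
      refine Real.rpow_le_rpow (by positivity) ?_ (by norm_num)
      calc c ^ 2 ≤ (9 / s ^ 14) ^ 2 := pow_le_pow_left₀ hc0 hcs 2
        _ = 81 / s ^ 28 := by rw [div_pow]; ring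
        _ ≤ 729 / s ^ 24 := by
            rw [div_le_div_iff₀ (by positivity) (by positivity)]
            have e3 : s ^ 24 ≤ s ^ 28 := pow_le_pow_right₀ hs (by norm_num)
            have e4 : (0 : ℝ) < s ^ 24 := by positivity
            linarith
        _ = (9 / s ^ 8) ^ 3 := by rw [div_pow]; ring
    have hkin : c ^ (5/3 : ℝ) * V ≤ 81 / s ^ 13 := by
      have e1 : c ^ (5/3 : ℝ) = c * c ^ (2/3 : ℝ) := by
        rcases hc0.lt_or_eq with hcp | hcp
        · rw [show (5/3 : ℝ) = 1 + 2/3 by norm_num, Real.rpow_add hcp, Real.rpow_one]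
        · rw [← hcp, Real.zero_rpow (by norm_num), zero_mul]
      calc c ^ (5/3 : ℝ) * V = (c * V) * c ^ (2/3 : ℝ) := by rw [e1]; ring
        _ = q * c ^ (2/3 : ℝ) := by rw [hcV]
        _ ≤ (9 / s ^ 5) * (9 / s ^ 8) := mul_le_mul hq hc23 (by positivity) (by positivity)
        _ = 81 / s ^ 13 := by field_simp; norm_num
    have h13 : (0 : ℝ) < s ^ 13 := by positivity
    have hfin : (81 : ℝ) / s ^ 13 + 3 / 5 * (81 / s ^ 13) + 1 / 2 * (81 / s ^ 13) ≤
        200 / s ^ 13 := by
      have : (81 : ℝ) / s ^ 13 + 3 / 5 * (81 / s ^ 13) + 1 / 2 * (81 / s ^ 13) =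
          (81 * (21 / 10)) / s ^ 13 := by ring
      rw [this]
      exact div_le_div_of_nonneg_right (by norm_num) h13.le
    rw [hge]
    linarith

end Pool.Agent.Q204.TFM
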