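import Pool.Agent.H9R2.TF.Fin
import Pool.Agent.Q204.TFM.SA2

/-!
# Thomas-Fermi molecules with two equal nuclei: upper and lower bounds, scaling
-/

set_option autoImplicit false
open MeasureTheory Set Filter Topology Metric
open scoped RealInnerProductSpace BigOperators ENNReal
open Pool.Agent.Helper557 Pool.Agent.Helper557.TFP Pool.Agent.H9R2.TF

namespace Pool.Agent.Q204.TFM

/-- the repulsion of the nuclei -/
noncomputable def Urep {k : ℕ} (z : Fin k → ℝ) (R : Fin k → E3) : ℝ :=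
  ∑ i, ∑ j ∈ Finset.Ioi i, z i * z j / ‖R i - R j‖

lemma xi_eq {k : ℕ} (z : Fin k → ℝ) (R : Fin k → E3) (ρ : E3 → ℝ) :
    xi z R ρ = EF z R ρ + Urep z R := by
  rw [← FE_eq]
  rfl

lemma Urep_two (z : Fin 2 → ℝ) (R : Fin 2 → E3) : Urep z R = z 0 * z 1 / ‖R 0 - R 1‖ := by
  unfold Urep
  rw [Fin.sum_univ_two]
  have h0 : Finset.Ioi (0 : Fin 2) = {1} := by decide
  have h1 : Finset.Ioi (1 : Fin 2) = ∅ := by decide
  rw [h0, h1, Finset.sum_singleton, Finset.sum_empty, add_zero]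

lemma Urep_one (z : Fin 1 → ℝ) (R : Fin 1 → E3) : Urep z R = 0 := by
  unfold Urep
  have h0 : Finset.Ioi (0 : Fin 1) = ∅ := by decide
  rw [Fin.sum_univ_one, h0, Finset.sum_empty]

/-- Newton's theorem outside the support -/
lemma newton_out {g : ℝ → ℝ} (hg : Measurable g) {r : ℝ}
    (h0 : ∀ t, r ≤ t → g t = 0) {x : E3} (hx : r ≤ ‖x‖) :
    pot (fun y : E3 => g ‖y‖) x = (∫ y : E3, g ‖y‖) / ‖x‖ := by
  rw [newton_radial hg, ← integral_div]
  refine integral_congr_ae (Eventually.of_forall fun y => ?_)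
  simp only
  rcases le_total r ‖y‖ with hy | hy
  · rw [h0 _ hy, zero_div, zero_div]
  · rw [max_eq_left (hy.trans hx)]

/-- **two neutral radial atoms do not interact** -/
theorem two_atoms {g : ℝ → ℝ} (hg : Measurable g) (hA : Adm (fun x : E3 => g ‖x‖))
    (h1 : ∫ x : E3, g ‖x‖ = 1) {r : ℝ} (hr : 0 < r) (h0 : ∀ t, r ≤ t → g t = 0) {p : E3}
    (hp : 2 * r ≤ ‖p‖) :
    ∃ ρ, Adm ρ ∧ ∫ x, ρ x = 2 ∧
      xi (fun _ : Fin 2 => (1 : ℝ)) ![0, p] ρ = 2 * EA1 (fun x => g ‖x‖) := by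
  set η : E3 → ℝ := fun x => g ‖x‖ with hη
  set η' : E3 → ℝ := fun x => η (x - p) with hη'
  have hp0 : 0 < ‖p‖ := by linarith
  have hA' : Adm η' := TF_en_translate_adm p η hA
  have n1 := nice_of_adm hA
  have n2 := nice_of_adm hA'
  have hpotp : pot η p = 1 / ‖p‖ := by
    rw [hη, newton_out hg h0 (by linarith), h1]
  have hpotm : pot η (-p) = 1 / ‖p‖ := by
    rw [hη, newton_out hg h0 (by rw [norm_neg]; linarith), h1, norm_neg]
  have hdis : ∀ x, η x = 0 ∨ η' x = 0 := by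
    intro x
    rcases le_total r ‖x‖ with hx | hx
    · exact Or.inl (h0 _ hx)
    · refine Or.inr (h0 _ ?_)
      have := norm_sub_norm_le p x
      rw [norm_sub_rev] at this
      linarith
  have hpow : (fun x => (η x + η' x) ^ (5/3 : ℝ)) =
      fun x => η x ^ (5/3 : ℝ) + η' x ^ (5/3 : ℝ) := by
    funext x
    rcases hdis x with h | h
    · rw [h, zero_add, Real.zero_rpow (by norm_num), zero_add]
    · rw [h, add_zero, Real.zero_rpow (by norm_num), add_zero]
  have hAs : Adm (fun x => η x + η' x) :=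
    ⟨n1.1.add n2.1, fun x => add_nonneg (hA.2.1 x) (hA'.2.1 x), n1.2.1.add n2.2.1, by
      rw [hpow]; exact hA.2.2.2.add hA'.2.2.2⟩
  refine ⟨fun x => η x + η' x, hAs, ?_, ?_⟩
  · rw [integral_add n1.2.1 n2.2.1]
    have : ∫ x, η' x = ∫ x, η x := integral_sub_right_eq_self η p
    rw [this, h1]
    norm_num
  · rw [xi_eq, Urep_two]
    have hpot : ∀ x, pot (fun y => η y + η' y) x = pot η x + pot η' x := by
      intro x
      have h1 : (fun y => η y + η' y) = fun y => η y - -(η' y) := by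
        funext y
        ring
      rw [h1, pot_sub n1 (TF_hsub_nice_neg η' n2), TF_hsub_pot_neg]
      ring
    have hpot' : ∀ x, pot η' x = pot η (x - p) := by
      intro x
      unfold pot
      rw [← integral_sub_right_eq_self (fun y => η y / ‖x - p - y‖) p]
      refine integral_congr_ae (Eventually.of_forall fun y => ?_)
      simp only [hη']
      congr 2
      abel
    have k1 : ∫ x, (η x + η' x) ^ (5/3 : ℝ) = 2 * ∫ x, η x ^ (5/3 : ℝ) := by
      rw [hpow, integral_add hA.2.2.2 hA'.2.2.2]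
      have : ∫ x, η' x ^ (5/3 : ℝ) = ∫ x, η x ^ (5/3 : ℝ) :=
        integral_sub_right_eq_self (fun x => η x ^ (5/3 : ℝ)) p
      rw [this]
      ring
    -- the potential energy
    have iv : ∀ (c : E3) {f : E3 → ℝ}, Nice f → Integrable (fun x => f x / ‖x - c‖) := by
      intro c f hf
      have := vint (fun _ : Fin 1 => (1 : ℝ)) (fun _ => c) hf
      refine this.congr (Eventually.of_forall fun x => ?_)
      simp only [VV, Finset.univ_unique, Finset.sum_const, Finset.card_singleton, one_smul]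
      ring
    have a1 : ∫ x, η x / ‖x - p‖ = 1 / ‖p‖ := by
      rw [← hpotp]
      unfold pot
      refine integral_congr_ae (Eventually.of_forall fun y => ?_)
      simp only
      rw [norm_sub_rev]
    have a2 : ∫ x, η' x / ‖x - 0‖ = 1 / ‖p‖ := by
      rw [← hpotm]
      unfold pot
      rw [← integral_sub_right_eq_self (fun y => η y / ‖-p - y‖) p]
      refine integral_congr_ae (Eventually.of_forall fun y => ?_)
      simp only [hη']
      rw [show -p - (y - p) = -y by abel, norm_neg, sub_zero]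
    have a3 : ∫ x, η' x / ‖x - p‖ = ∫ x, η x / ‖x - 0‖ := by
      rw [← integral_sub_right_eq_self (fun y => η y / ‖y - 0‖) p]
      refine integral_congr_ae (Eventually.of_forall fun y => ?_)
      simp only [hη', sub_zero]
    have k2 : ∫ x, VV (fun _ : Fin 2 => (1 : ℝ)) ![0, p] x * (η x + η' x) =
        2 * (∫ x, η x / ‖x - 0‖) + 2 * (1 / ‖p‖) := by
      have e1 : ∀ x, VV (fun _ : Fin 2 => (1 : ℝ)) ![0, p] x * (η x + η' x) =
          (η x / ‖x - 0‖ + η' x / ‖x - 0‖) + (η x / ‖x - p‖ + η' x / ‖x - p‖) := by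
        intro x
        simp only [VV, Fin.sum_univ_two, Matrix.cons_val_zero, Matrix.cons_val_one]
        ring
      simp only [e1]
      have e2 : ∫ x, ((η x / ‖x - 0‖ + η' x / ‖x - 0‖) + (η x / ‖x - p‖ + η' x / ‖x - p‖)) =
          (∫ x, (η x / ‖x - 0‖ + η' x / ‖x - 0‖)) + ∫ x, (η x / ‖x - p‖ + η' x / ‖x - p‖) :=
        integral_add ((iv 0 n1).add (iv 0 n2)) ((iv p n1).add (iv p n2))
      rw [e2, integral_add (iv 0 n1) (iv 0 n2), integral_add (iv p n1) (iv p n2), a1, a2, a3]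
      ring
    have a4 : ∫ x, η' x * pot η x = 1 / ‖p‖ := by
      rw [← a2]
      refine integral_congr_ae (Eventually.of_forall fun x => ?_)
      simp only
      rcases le_total r ‖x‖ with hx | hx
      · rw [hη, newton_out hg h0 hx, h1, sub_zero]
        ring
      · have : η' x = 0 := by
          apply h0
          have := norm_sub_norm_le p x
          rw [norm_sub_rev] at this
          linarith
        rw [this, zero_mul, zero_div]
    have a5 : ∫ x, η' x * pot η' x = ∫ x, η x * pot η x := by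
      rw [← integral_sub_right_eq_self (fun x => η x * pot η x) p]
      refine integral_congr_ae (Eventually.of_forall fun x => ?_)
      simp only
      rw [hpot']
    have k3 : ∫ x, (η x + η' x) * pot (fun y => η y + η' y) x =
        2 * (∫ x, η x * pot η x) + 2 * (1 / ‖p‖) := by
      have e0 : ∀ x, (η x + η' x) * pot (fun y => η y + η' y) x =
          (η x * pot η x + η x * pot η' x) + (η' x * pot η x + η' x * pot η' x) := by
        intro x
        rw [hpot]
        ring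
      simp only [e0]
      have j1 := TF_E1_int η η n1.2.1 n1
      have j2 := TF_E1_int η η' n1.2.1 n2
      have j3 := TF_E1_int η' η n2.2.1 n1
      have j4 := TF_E1_int η' η' n2.2.1 n2
      have e1 : ∫ x, ((η x * pot η x + η x * pot η' x) + (η' x * pot η x + η' x * pot η' x)) =
          (∫ x, (η x * pot η x + η x * pot η' x)) + ∫ x, (η' x * pot η x + η' x * pot η' x) :=
        integral_add (j1.add j2) (j3.add j4)
      rw [e1, integral_add j1 j2, integral_add j3 j4, TF_E1_symm η η' n1 n2, a4, a5]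
      ring
    have k4 : ∫ x, VV (fun _ : Fin 1 => (1 : ℝ)) (fun _ => (0 : E3)) x * η x =
        ∫ x, η x / ‖x - 0‖ := by
      refine integral_congr_ae (Eventually.of_forall fun x => ?_)
      simp only [VV, Finset.univ_unique, Finset.sum_const, Finset.card_singleton, one_smul]
      ring
    unfold EA1 EF
    rw [k1, k2, k3, k4]
    simp only [Matrix.cons_val_zero, Matrix.cons_val_one, zero_sub, norm_neg]
    ring

/-- the energy of an atom -/
noncomputable def at' (z : ℝ) : ℝ := en (fun _ : Fin 1 => z) (fun _ => (0 : E3)) z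

lemma at_le {σ : E3 → ℝ} {z : ℝ} (hz : 0 ≤ z) (hσ : Adm σ) (h : ∫ x, σ x = z) :
    at' z ≤ EF (fun _ : Fin 1 => z) (fun _ => (0 : E3)) σ := by
  refine csInf_le (en_bdd _ (fun _ => hz) _ _) ⟨σ, hσ, h, ?_⟩
  rw [xi_eq, Urep_one, add_zero]

lemma le_at {c z : ℝ} (hz : 0 ≤ z)
    (h : ∀ σ, Adm σ → ∫ x, σ x = z → c ≤ EF (fun _ : Fin 1 => z) (fun _ => (0 : E3)) σ) :
    c ≤ at' z := by
  refine le_csInf (en_nonempty _ _ _ hz) ?_
  rintro E ⟨σ, hσ, hm, rfl⟩
  rw [xi_eq, Urep_one, add_zero]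
  exact h σ hσ hm

/-- upper bound for two distant nuclei of charge one -/
theorem upper {s : ℝ} (hs : 1 ≤ s) {p : E3} (hp : 4 * s ^ 3 ≤ ‖p‖) :
    en (fun _ : Fin 2 => (1 : ℝ)) ![0, p] 2 ≤ 2 * at' 1 + 400 / s ^ 13 := by
  obtain ⟨g, hg, hA, h1, h0, hmin⟩ := trial hs
  have hs0 : 0 < s := by linarith
  obtain ⟨ρ, hρ, hm, hx⟩ := two_atoms hg hA h1 (r := 2 * s ^ 3) (by positivity) h0 (p := p)
    (by linarith)
  have h2 : en (fun _ : Fin 2 => (1 : ℝ)) ![0, p] 2 ≤ 2 * EA1 (fun x => g ‖x‖) :=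
    csInf_le (en_bdd _ (fun _ => zero_le_one) _ _) ⟨ρ, hρ, hm, hx⟩
  have h3 : EA1 (fun x => g ‖x‖) - 200 / s ^ 13 ≤ at' 1 := by
    refine le_at zero_le_one fun σ hσ hσ1 => ?_
    have := hmin σ hσ hσ1
    linarith
  have h4 : (400 : ℝ) / s ^ 13 = 2 * (200 / s ^ 13) := by ring
  linarith

/-- lower bound for two nuclei of charge one -/
theorem lower {p : E3} : at' 2 + 1 / ‖p‖ ≤ en (fun _ : Fin 2 => (1 : ℝ)) ![0, p] 2 := by
  refine le_csInf (en_nonempty _ _ _ zero_le_two) ?_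
  rintro E ⟨σ, hσ, hm, rfl⟩
  have nσ := nice_of_adm hσ
  rw [xi_eq, Urep_two]
  have h1 : at' 2 ≤ EF (fun _ : Fin 1 => (2 : ℝ)) (fun _ => (0 : E3)) σ :=
    at_le zero_le_two hσ hm
  have h2 : at' 2 ≤ EF (fun _ : Fin 1 => (2 : ℝ)) (fun _ => p) σ := by
    have h3 : at' 2 = en (fun _ : Fin 1 => (2 : ℝ)) (fun _ => p) 2 := by
      have := en_translate (fun _ : Fin 1 => (2 : ℝ)) (fun _ => (0 : E3)) 2 p
      unfold at'
      rw [← this]
      simp only [zero_add]
    rw [h3]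
    refine csInf_le (en_bdd _ (fun _ => zero_le_two) _ _) ⟨σ, hσ, hm, ?_⟩
    rw [xi_eq, Urep_one, add_zero]
  have h4 : EF (fun _ : Fin 2 => (1 : ℝ)) ![0, p] σ =
      1 / 2 * EF (fun _ : Fin 1 => (2 : ℝ)) (fun _ => (0 : E3)) σ +
        1 / 2 * EF (fun _ : Fin 1 => (2 : ℝ)) (fun _ => p) σ := by
    have h5 : ∫ x, VV (fun _ : Fin 2 => (1 : ℝ)) ![0, p] x * σ x =
        1 / 2 * (∫ x, VV (fun _ : Fin 1 => (2 : ℝ)) (fun _ => (0 : E3)) x * σ x) +
          1 / 2 * ∫ x, VV (fun _ : Fin 1 => (2 : ℝ)) (fun _ => p) x * σ x := by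
      rw [← integral_const_mul, ← integral_const_mul,
        ← integral_add ((vint _ _ nσ).const_mul _) ((vint _ _ nσ).const_mul _)]
      refine integral_congr_ae (Eventually.of_forall fun x => ?_)
      simp only [VV, Fin.sum_univ_two, Matrix.cons_val_zero, Matrix.cons_val_one,
        Finset.univ_unique, Finset.sum_const, Finset.card_singleton, one_smul]
      ring
    unfold EF
    rw [h5]
    ring
  rw [h4]
  simp only [Matrix.cons_val_zero, Matrix.cons_val_one, zero_sub, norm_neg]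
  linarith

/-! ### scaling -/

lemma int_dil {m : ℝ} (hm : 0 < m) (f : E3 → ℝ) : ∫ x, f (m • x) = (m ^ 3)⁻¹ * ∫ x, f x := by
  rw [Measure.integral_comp_smul]
  simp only [finrank_euclideanSpace, Fintype.card_fin, smul_eq_mul]
  rw [abs_of_pos (by positivity)]

lemma adm_dil {m : ℝ} (hm : 0 < m) {ρ : E3 → ℝ} (h : Adm ρ) : Adm (fun x => m ^ 6 * ρ (m • x)) := by
  refine ⟨(h.1.comp (measurable_const_smul m)).const_mul _,
    fun x => mul_nonneg (by positivity) (h.2.1 _), ?_, ?_⟩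
  · exact (h.2.2.1.comp_smul hm.ne').const_mul _
  · refine ((h.2.2.2.comp_smul hm.ne').const_mul ((m ^ 6) ^ (5/3 : ℝ))).congr
      (Eventually.of_forall fun x => ?_)
    simp only
    rw [Real.mul_rpow (by positivity) (h.2.1 _)]

lemma xi_dil {k : ℕ} {m : ℝ} (hm : 0 < m) (z : Fin k → ℝ) (R : Fin k → E3) {ρ : E3 → ℝ}
    (hρ : ∀ x, 0 ≤ ρ x) :
    xi (fun j => m ^ 3 * z j) R (fun x => m ^ 6 * ρ (m • x)) =
      m ^ 7 * xi z (fun j => m • R j) ρ := by
  have hnorm : ∀ x y : E3, ‖m • x - m • y‖ = m * ‖x - y‖ := by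
    intro x y
    rw [← smul_sub, norm_smul, Real.norm_of_nonneg hm.le]
  have e1 : ∫ x, (m ^ 6 * ρ (m • x)) ^ (5/3 : ℝ) = m ^ 7 * ∫ x, ρ x ^ (5/3 : ℝ) := by
    have h1 : ∀ x, (m ^ 6 * ρ (m • x)) ^ (5/3 : ℝ) = m ^ 10 * (fun y => ρ y ^ (5/3 : ℝ)) (m • x) := by
      intro x
      rw [Real.mul_rpow (by positivity) (hρ _), ← Real.rpow_natCast m 6, ← Real.rpow_mul hm.le]
      norm_num
    simp only [h1]
    rw [integral_const_mul, int_dil hm (fun y => ρ y ^ (5/3 : ℝ))]
    field_simp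
  have e2 : ∫ x, (∑ j, m ^ 3 * z j / ‖x - R j‖) * (m ^ 6 * ρ (m • x)) =
      m ^ 7 * ∫ x, (∑ j, z j / ‖x - m • R j‖) * ρ x := by
    have h1 : ∀ x, (∑ j, m ^ 3 * z j / ‖x - R j‖) * (m ^ 6 * ρ (m • x)) =
        m ^ 10 * (fun y => (∑ j, z j / ‖y - m • R j‖) * ρ y) (m • x) := by
      intro x
      simp only
      rw [Finset.sum_mul, Finset.sum_mul, Finset.mul_sum]
      refine Finset.sum_congr rfl fun j _ => ?_
      rw [hnorm]
      by_cases hx : ‖x - R j‖ = 0
      · rw [hx]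
        simp
      · field_simp
    simp only [h1]
    rw [integral_const_mul, int_dil hm (fun y => (∑ j, z j / ‖y - m • R j‖) * ρ y)]
    field_simp
  have e3 : (∫ x, ∫ y, (m ^ 6 * ρ (m • x)) * (m ^ 6 * ρ (m • y)) / ‖x - y‖) =
      m ^ 7 * ∫ x, ∫ y, ρ x * ρ y / ‖x - y‖ := by
    have h1 : ∀ x, ∫ y, (m ^ 6 * ρ (m • x)) * (m ^ 6 * ρ (m • y)) / ‖x - y‖ =
        m ^ 10 * (fun x => ∫ y, ρ x * ρ y / ‖x - y‖) (m • x) := by
      intro x
      have h2 : ∀ y, (m ^ 6 * ρ (m • x)) * (m ^ 6 * ρ (m • y)) / ‖x - y‖ =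
          m ^ 13 * (fun y => ρ (m • x) * ρ y / ‖m • x - y‖) (m • y) := by
        intro y
        simp only
        rw [hnorm]
        by_cases hx : ‖x - y‖ = 0
        · rw [hx]
          simp
        · field_simp
      simp only [h2]
      rw [integral_const_mul, int_dil hm (fun y => ρ (m • x) * ρ y / ‖m • x - y‖)]
      field_simp
    simp only [h1]
    rw [integral_const_mul, int_dil hm (fun x => ∫ y, ρ x * ρ y / ‖x - y‖)]
    field_simp
  have e4 : (∑ i, ∑ j ∈ Finset.Ioi i, m ^ 3 * z i * (m ^ 3 * z j) / ‖R i - R j‖) =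
      m ^ 7 * ∑ i, ∑ j ∈ Finset.Ioi i, z i * z j / ‖m • R i - m • R j‖ := by
    rw [Finset.mul_sum]
    refine Finset.sum_congr rfl fun i _ => ?_
    rw [Finset.mul_sum]
    refine Finset.sum_congr rfl fun j _ => ?_
    rw [hnorm]
    by_cases hx : ‖R i - R j‖ = 0
    · rw [hx]
      simp
    · field_simp
  unfold xi
  rw [e1, e2, e3, e4]
  ring

lemma en_dil_le {k : ℕ} {m : ℝ} (hm : 0 < m) {z : Fin k → ℝ} (hz : ∀ j, 0 ≤ z j)
    (R : Fin k → E3) {lam : ℝ} (hl : 0 ≤ lam) :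
    en (fun j => m ^ 3 * z j) R (m ^ 3 * lam) ≤ m ^ 7 * en z (fun j => m • R j) lam := by
  have hm7 : (0 : ℝ) < m ^ 7 := by positivity
  rw [← div_le_iff₀' hm7]
  refine le_csInf (en_nonempty _ _ _ hl) ?_
  rintro E ⟨ρ, hρ, hmass, rfl⟩
  rw [div_le_iff₀' hm7, ← xi_dil hm z R hρ.2.1]
  refine csInf_le (en_bdd _ (fun j => mul_nonneg (by positivity) (hz j)) _ _)
    ⟨_, adm_dil hm hρ, ?_, rfl⟩
  rw [integral_const_mul, int_dil hm, hmass]
  field_simp

theorem en_dil' {k : ℕ} {m : ℝ} (hm : 0 < m) {z : Fin k → ℝ} (hz : ∀ j, 0 ≤ z j)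
    (R : Fin k → E3) {lam : ℝ} (hl : 0 ≤ lam) :
    en (fun j => m ^ 3 * z j) R (m ^ 3 * lam) = m ^ 7 * en z (fun j => m • R j) lam := by
  refine le_antisymm (en_dil_le hm hz R hl) ?_
  have h := en_dil_le (inv_pos.2 hm) (z := fun j => m ^ 3 * z j)
    (fun j => mul_nonneg (by positivity) (hz j)) (fun j => m • R j) (lam := m ^ 3 * lam)
    (by positivity)
  have h1 : (fun j => m⁻¹ ^ 3 * (m ^ 3 * z j)) = z := by
    funext j
    field_simp
  have h2 : m⁻¹ ^ 3 * (m ^ 3 * lam) = lam := by field_simp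
  have h3 : (fun j => m⁻¹ • m • R j) = R := by
    funext j
    rw [smul_smul, inv_mul_cancel₀ hm.ne', one_smul]
  rw [h1, h2, h3] at h
  calc m ^ 7 * en z (fun j => m • R j) lam ≤
      m ^ 7 * (m⁻¹ ^ 7 * en (fun j => m ^ 3 * z j) R (m ^ 3 * lam)) :=
        mul_le_mul_of_nonneg_left h (by positivity)
    _ = en (fun j => m ^ 3 * z j) R (m ^ 3 * lam) := by field_simp

end Pool.Agent.Q204.TFM
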