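import Pool.Agent.Q204.TFM.SA3

/-!
# The molecular energy minus the atomic energies is not superadditive
-/

set_option autoImplicit false
open MeasureTheory Set Filter Topology Metric
open scoped RealInnerProductSpace BigOperators ENNReal
open Pool.Agent.Helper557 Pool.Agent.Helper557.TFP Pool.Agent.H9R2.TF

namespace Pool.Agent.Q204.TFM

/-- molecular energy minus atomic energies -/
noncomputable def FF {k : ℕ} (R : Fin k → E3) (z : Fin k → ℝ) : ℝ :=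
  en z R (∑ j, z j) - ∑ j, at' (z j)

lemma at_dil {m z : ℝ} (hm : 0 < m) (hz : 0 ≤ z) : at' (m ^ 3 * z) = m ^ 7 * at' z := by
  have h := en_dil' hm (z := fun _ : Fin 1 => z) (fun _ => hz) (fun _ => (0 : E3)) (lam := z) hz
  simp only [smul_zero] at h
  exact h

lemma FF_dil {k : ℕ} {m : ℝ} (hm : 0 < m) (R : Fin k → E3) {z : Fin k → ℝ} (hz : ∀ j, 0 ≤ z j) :
    FF R (fun j => m ^ 3 * z j) = m ^ 7 * FF (fun j => m • R j) z := by
  unfold FF
  have h1 : ∑ j, m ^ 3 * z j = m ^ 3 * ∑ j, z j := (Finset.mul_sum _ _ _).symm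
  rw [h1, en_dil' hm hz R (Finset.sum_nonneg fun j _ => hz j), mul_sub, Finset.mul_sum]
  congr 1
  exact Finset.sum_congr rfl fun j _ => at_dil hm (hz j)

lemma FF_translate {k : ℕ} (R : Fin k → E3) (v : E3) (z : Fin k → ℝ) :
    FF (fun j => R j + v) z = FF R z := by
  unfold FF
  rw [en_translate]

/-- the constant vector -/
def cv (N : ℝ) : Fin 2 → ℝ := fun _ => N

lemma base_bound {p : E3} {r : ℝ} (hr : r = 1 / (|2 * at' 1 - at' 2| + 1)) (hp : ‖p‖ = r) :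
    1 ≤ FF ![0, p] (cv 1) := by
  have h1 := lower (p := p)
  have h2 : 1 / ‖p‖ = |2 * at' 1 - at' 2| + 1 := by
    rw [hp, hr, one_div_one_div]
  have h3 := le_abs_self (2 * at' 1 - at' 2)
  unfold FF cv
  have h4 : ∑ _j : Fin 2, (1 : ℝ) = 2 := by simp
  rw [h4, Fin.sum_univ_two]
  linarith

lemma upper_FF {s : ℝ} (hs : 1 ≤ s) {p : E3} (hp : 4 * s ^ 3 ≤ ‖p‖) :
    FF ![0, p] (cv 1) ≤ 400 / s ^ 13 := by
  have h1 := upper hs hp
  unfold FF cv
  have h4 : ∑ _j : Fin 2, (1 : ℝ) = 2 := by simp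
  rw [h4, Fin.sum_univ_two]
  linarith

lemma smul_pair (m : ℝ) (p : E3) : (fun j => m • (![0, p] : Fin 2 → E3) j) = ![0, m • p] := by
  funext j
  fin_cases j
  · simp
  · simp

/-- **not superadditive for two nuclei** -/
theorem no_SA2 {p : E3} (hp : p ≠ 0) : ∃ z₁ z₂ : Fin 2 → ℝ, (∀ i, 0 ≤ z₁ i) ∧ (∀ i, 0 ≤ z₂ i) ∧
    FF ![0, p] (z₁ + z₂) < FF ![0, p] z₁ + FF ![0, p] z₂ := by
  by_contra hcon
  push Not at hcon
  have hp0 : 0 < ‖p‖ := norm_pos_iff.2 hp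
  obtain ⟨r, hr⟩ : ∃ r, r = 1 / (|2 * at' 1 - at' 2| + 1) := ⟨_, rfl⟩
  have hr0 : 0 < r := by
    rw [hr]
    positivity
  set m := r / ‖p‖ with hm
  have hm0 : 0 < m := by positivity
  set p' := m • p with hp'
  have hp'n : ‖p'‖ = r := by
    rw [hp', norm_smul, Real.norm_of_nonneg hm0.le, hm, div_mul_cancel₀ _ hp0.ne']
  -- superadditivity for the rescaled molecule
  have hSA : ∀ z₁ z₂ : Fin 2 → ℝ, (∀ i, 0 ≤ z₁ i) → (∀ i, 0 ≤ z₂ i) →
      FF ![0, p'] z₁ + FF ![0, p'] z₂ ≤ FF ![0, p'] (z₁ + z₂) := by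
    intro z₁ z₂ h₁ h₂
    have h := hcon (fun j => m ^ 3 * z₁ j) (fun j => m ^ 3 * z₂ j)
      (fun j => mul_nonneg (by positivity) (h₁ j)) (fun j => mul_nonneg (by positivity) (h₂ j))
    have e1 : ((fun j => m ^ 3 * z₁ j) + fun j => m ^ 3 * z₂ j) =
        fun j => m ^ 3 * (z₁ + z₂) j := by
      funext j
      simp only [Pi.add_apply]
      ring
    rw [e1, FF_dil hm0 _ h₁, FF_dil hm0 _ h₂, FF_dil hm0 _ (z := z₁ + z₂) (fun j => add_nonneg (h₁ j) (h₂ j)),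
      smul_pair, ← mul_add] at h
    exact le_of_mul_le_mul_left h (by positivity)
  have hind : ∀ N : ℕ, ((N + 1 : ℕ) : ℝ) ≤ FF ![0, p'] (cv ((N + 1 : ℕ) : ℝ)) := by
    intro N
    induction N with
    | zero =>
      have := base_bound hr hp'n
      simpa using this
    | succ N ih =>
      have h1 := hSA (cv ((N + 1 : ℕ) : ℝ)) (cv 1) (fun _ => by unfold cv; positivity)
        (fun _ => zero_le_one)
      have h2 : cv ((N + 1 : ℕ) : ℝ) + cv 1 = cv ((N + 1 + 1 : ℕ) : ℝ) := by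
        funext j
        simp [cv]
      rw [h2] at h1
      have h3 := base_bound hr hp'n
      have h4 : ((N + 1 + 1 : ℕ) : ℝ) = ((N + 1 : ℕ) : ℝ) + 1 := by push_cast; ring
      rw [h4] at h1 ⊢
      linarith
  set κ := (r / 4) ^ (1/3 : ℝ) with hκ
  have hκ0 : 0 < κ := by positivity
  have hκ3 : κ ^ 3 = r / 4 := by
    rw [hκ, ← Real.rpow_natCast, ← Real.rpow_mul (by positivity)]
    norm_num
  obtain ⟨n, hn⟩ := exists_nat_gt (400 / κ ^ 13 + 1 / κ + 1)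
  have hk1 : 0 < 400 / κ ^ 13 := by positivity
  have hk2 : 0 < 1 / κ := by positivity
  have hn1 : (1 : ℝ) < n := by linarith
  have hn0 : (0 : ℝ) < n := by linarith
  have hnκ : 1 ≤ n * κ := by
    have : 1 / κ < n := by linarith
    rw [div_lt_iff₀ hκ0] at this
    exact this.le
  have hup := upper_FF hnκ (p := ((n : ℝ) ^ 3) • p') (by
    rw [norm_smul, hp'n, Real.norm_of_nonneg (by positivity), mul_pow, hκ3]
    apply le_of_eq
    ring)
  have hlow : (n : ℝ) ^ 9 ≤ FF ![0, p'] (cv ((n : ℝ) ^ 9)) := by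
    obtain ⟨N, hN⟩ : ∃ N : ℕ, N + 1 = n ^ 9 := by
      have : 0 < n ^ 9 := by
        have : 0 < n := by exact_mod_cast hn0
        positivity
      exact ⟨n ^ 9 - 1, by omega⟩
    have := hind N
    rw [hN] at this
    push_cast at this
    exact this
  have hsc : FF ![0, p'] (cv ((n : ℝ) ^ 9)) =
      ((n : ℝ) ^ 3) ^ 7 * FF ![0, ((n : ℝ) ^ 3) • p'] (cv 1) := by
    have h1 := FF_dil (m := (n : ℝ) ^ 3) (by positivity) ![0, p'] (z := cv 1)
      (fun _ => zero_le_one)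
    rw [smul_pair] at h1
    rw [← h1]
    congr 1
    funext j
    simp only [cv]
    ring
  have hfin : (n : ℝ) ^ 9 ≤ ((n : ℝ) ^ 3) ^ 7 * (400 / (n * κ) ^ 13) := by
    refine hlow.trans ?_
    rw [hsc]
    exact mul_le_mul_of_nonneg_left hup (by positivity)
  have h1 : ((n : ℝ) ^ 3) ^ 7 * (400 / (n * κ) ^ 13) = (n : ℝ) ^ 8 * (400 / κ ^ 13) := by
    field_simp
  rw [h1] at hfin
  have h2 : (n : ℝ) ^ 8 * (400 / κ ^ 13) < (n : ℝ) ^ 8 * n :=
    mul_lt_mul_of_pos_left (by linarith) (by positivity)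
  have h3 : (n : ℝ) ^ 8 * n = (n : ℝ) ^ 9 := by ring
  linarith

/-! ### more nuclei -/

lemma at_zero : at' 0 = 0 := by
  apply le_antisymm
  · have hA : Adm (fun _ : E3 => (0 : ℝ)) := by
      refine ⟨measurable_const, fun _ => le_rfl, integrable_zero _ _ _, ?_⟩
      have : (fun _ : E3 => (0 : ℝ) ^ (5/3 : ℝ)) = fun _ => 0 := by
        funext _
        exact Real.zero_rpow (by norm_num)
      rw [this]
      exact integrable_zero _ _ _
    have h := at_le le_rfl hA (by simp)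
    refine h.trans (le_of_eq ?_)
    unfold EF
    simp
  · refine le_at le_rfl fun σ hσ _ => ?_
    have h1 : 0 ≤ ∫ x, σ x ^ (5/3 : ℝ) := integral_nonneg fun x => Real.rpow_nonneg (hσ.2.1 x) _
    have h2 : ∫ x, VV (fun _ : Fin 1 => (0 : ℝ)) (fun _ => (0 : E3)) x * σ x = 0 := by
      simp [VV]
    have h3 : 0 ≤ ∫ x, σ x * pot σ x :=
      integral_nonneg fun x => mul_nonneg (hσ.2.1 x) (pot_nonneg hσ.2.1 x)
    unfold EF
    rw [h2]
    linarith

/-- charges on the first two nuclei only -/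
noncomputable def zz {k : ℕ} (i₀ i₁ : Fin k) (w : Fin 2 → ℝ) : Fin k → ℝ :=
  fun j => if j = i₀ then w 0 else if j = i₁ then w 1 else 0

lemma sum_zz {k : ℕ} {i₀ i₁ : Fin k} (h : i₀ ≠ i₁) (w : Fin 2 → ℝ) (f : Fin k → ℝ → ℝ)
    (hf : ∀ j, f j 0 = 0) : ∑ j, f j (zz i₀ i₁ w j) = f i₀ (w 0) + f i₁ (w 1) := by
  have h1 : ∀ j, f j (zz i₀ i₁ w j) =
      (if j = i₀ then f i₀ (w 0) else 0) + (if j = i₁ then f i₁ (w 1) else 0) := by
    intro j
    unfold zz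
    by_cases h0 : j = i₀
    · subst h0
      simp [h]
    · by_cases h2 : j = i₁
      · subst h2
        simp [h0]
      · simp [h0, h2, hf]
  simp only [h1]
  rw [Finset.sum_add_distrib, Finset.sum_ite_eq' Finset.univ i₀, Finset.sum_ite_eq' Finset.univ i₁]
  simp

lemma VV_zz {k : ℕ} {i₀ i₁ : Fin k} (h : i₀ ≠ i₁) (w : Fin 2 → ℝ) (R : Fin k → E3) (x : E3) :
    VV (zz i₀ i₁ w) R x = VV w ![R i₀, R i₁] x := by
  unfold VV
  rw [sum_zz h w (fun j t => t / ‖x - R j‖) (fun j => zero_div _), Fin.sum_univ_two]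
  simp

lemma Urep_zz {k : ℕ} {i₀ i₁ : Fin k} (h : i₀ < i₁) (w : Fin 2 → ℝ) (R : Fin k → E3) :
    Urep (zz i₀ i₁ w) R = Urep w ![R i₀, R i₁] := by
  rw [Urep_two]
  unfold Urep
  have hz0 : zz i₀ i₁ w i₀ = w 0 := by simp [zz]
  have hz1 : zz i₀ i₁ w i₁ = w 1 := by simp [zz, h.ne']
  have hzz : ∀ j, j ≠ i₀ → j ≠ i₁ → zz i₀ i₁ w j = 0 := fun j h0 h1 => by simp [zz, h0, h1]
  rw [Finset.sum_eq_single i₀]
  · rw [Finset.sum_eq_single i₁]
    · rw [hz0, hz1]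
      simp
    · intro j hj hj1
      rw [hzz j (ne_of_gt (Finset.mem_Ioi.1 hj)) hj1, mul_zero, zero_div]
    · intro hn
      exact absurd (Finset.mem_Ioi.2 h) hn
  · intro i _ hi
    by_cases hi1 : i = i₁
    · subst hi1
      refine Finset.sum_eq_zero fun j hj => ?_
      have hj' := Finset.mem_Ioi.1 hj
      rw [hzz j (ne_of_gt (h.trans hj')) (ne_of_gt hj'), mul_zero, zero_div]
    · refine Finset.sum_eq_zero fun j _ => ?_
      rw [hzz i hi hi1, zero_mul, zero_div]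
  · intro hn
    exact absurd (Finset.mem_univ _) hn

lemma FF_zz {k : ℕ} {i₀ i₁ : Fin k} (h : i₀ < i₁) (w : Fin 2 → ℝ) (R : Fin k → E3) :
    FF R (zz i₀ i₁ w) = FF ![R i₀, R i₁] w := by
  unfold FF
  have h1 : ∑ j, zz i₀ i₁ w j = ∑ j, w j := by
    rw [sum_zz h.ne w (fun _ t => t) (fun _ => rfl), Fin.sum_univ_two]
  have h2 : ∑ j, at' (zz i₀ i₁ w j) = ∑ j, at' (w j) := by
    rw [sum_zz h.ne w (fun _ t => at' t) (fun _ => at_zero), Fin.sum_univ_two]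
  have h3 : ∀ ρ, xi (zz i₀ i₁ w) R ρ = xi w ![R i₀, R i₁] ρ := by
    intro ρ
    rw [xi_eq, xi_eq, Urep_zz h]
    unfold EF
    simp only [VV_zz h.ne]
  rw [h1, h2]
  unfold en
  simp only [h3]

/-- **not superadditive for any molecule with at least two nuclei** -/
theorem no_SA {k : ℕ} (hk : 2 ≤ k) (R : Fin k → E3) (hR : Function.Injective R) :
    ∃ z₁ z₂ : Fin k → ℝ, (∀ i, 0 ≤ z₁ i) ∧ (∀ i, 0 ≤ z₂ i) ∧
      FF R (z₁ + z₂) < FF R z₁ + FF R z₂ := by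
  set i₀ : Fin k := ⟨0, by omega⟩ with hi0
  set i₁ : Fin k := ⟨1, by omega⟩ with hi1
  have hlt : i₀ < i₁ := by
    rw [hi0, hi1, Fin.mk_lt_mk]
    norm_num
  have hne : R i₁ - R i₀ ≠ 0 := sub_ne_zero.2 fun h => hlt.ne' (hR h)
  obtain ⟨w₁, w₂, h₁, h₂, hlt'⟩ := no_SA2 hne
  have hpair : (fun j => (![0, R i₁ - R i₀] : Fin 2 → E3) j + R i₀) = ![R i₀, R i₁] := by
    funext j
    fin_cases j
    · simp
    · simp
  have hw : ∀ w : Fin 2 → ℝ, FF R (zz i₀ i₁ w) = FF ![0, R i₁ - R i₀] w := by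
    intro w
    rw [FF_zz hlt, ← hpair, FF_translate]
  have hnn : ∀ w : Fin 2 → ℝ, (∀ i, 0 ≤ w i) → ∀ i, 0 ≤ zz i₀ i₁ w i := by
    intro w hw i
    unfold zz
    split_ifs
    · exact hw 0
    · exact hw 1
    · exact le_rfl
  have hadd : zz i₀ i₁ w₁ + zz i₀ i₁ w₂ = zz i₀ i₁ (w₁ + w₂) := by
    funext j
    simp only [zz, Pi.add_apply]
    split_ifs <;> simp
  refine ⟨zz i₀ i₁ w₁, zz i₀ i₁ w₂, hnn _ h₁, hnn _ h₂, ?_⟩
  rw [hadd, hw, hw, hw]
  exact hlt'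

end Pool.Agent.Q204.TFM
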